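import Pool.Agent.Helper79.LG.Mart
import Pool.Agent.Helper79.LD.Cls
import Pool.Agent.Helper79.LD.Cnt

/-!
Deviation of a coefficient from its average over a node.
-/

open Finset

namespace Pool.Agent.Helper79.LC

section lin

variable {ι : Type*} {K : Type*} [Field K]

lemma av_sum (F : Finset ι) (a : ι → ℕ → ℤ) (k : ℕ) {α : Type*} (s : Finset α)
    (φ : α → ι → K) (f : ι) :
    av F a k (fun g => ∑ p ∈ s, φ p g) f = ∑ p ∈ s, av F a k (φ p) f := by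
  simp only [av]
  rw [sum_comm, mul_sum]

lemma av_cmul (F : Finset ι) (a : ι → ℕ → ℤ) (k : ℕ) (x : K) (φ : ι → K) (f : ι) :
    av F a k (fun g => x * φ g) f = x * av F a k φ f := by
  simp only [av]
  rw [← mul_sum]; ring

lemma av_add (F : Finset ι) (a : ι → ℕ → ℤ) (k : ℕ) (φ ψ : ι → K) (f : ι) :
    av F a k (fun g => φ g + ψ g) f = av F a k φ f + av F a k ψ f := by
  simp only [av]
  rw [sum_add_distrib]; ring

lemma av_sub (F : Finset ι) (a : ι → ℕ → ℤ) (k : ℕ) (φ ψ : ι → K) (f : ι) :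
    av F a k (fun g => φ g - ψ g) f = av F a k φ f - av F a k ψ f := by
  simp only [av]
  rw [sum_sub_distrib]; ring

lemma av_const [CharZero K] {F : Finset ι} {a : ι → ℕ → ℤ} {k : ℕ} {f : ι} (hf : f ∈ F) (x : K) :
    av F a k (fun _ => x) f = x := by
  rw [av, sum_const, nsmul_eq_mul, ← mul_assoc, inv_mul_cancel₀ (card_node_ne hf), one_mul]

lemma av_eq {F : Finset ι} {a : ι → ℕ → ℤ} {k : ℕ} {f : ι} {φ ψ : ι → K}
    (h : ∀ g ∈ node F a f k, φ g = ψ g) : av F a k φ f = av F a k ψ f := by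
  rw [av, av, sum_congr rfl h]

end lin

/-- the bilinear form of the branching identity -/
noncomputable def RR (k : ℕ) (P U Q V : PowerSeries ℂ) : ℂ :=
  ∑ p ∈ antidiagonal k, (((p.1 : ℂ) - p.2) * (PowerSeries.coeff p.1 P * PowerSeries.coeff p.2 Q) -
    (PowerSeries.coeff p.1 U * PowerSeries.coeff p.2 Q -
      PowerSeries.coeff p.1 P * PowerSeries.coeff p.2 V))

/-- outer factor -/
noncomputable def qs (m : Multiset ℂ) : PowerSeries ℂ := BQ (out m)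

/-- outer factor times power sums -/
noncomputable def us (m : Multiset ℂ) : PowerSeries ℂ := BQ (out m) * PW (m.map refl)

lemma branch' (m m' : Multiset ℂ) (k : ℕ)
    (h : ∀ j < k, PowerSeries.coeff j (HH m) = PowerSeries.coeff j (HH m')) :
    (k : ℂ) * (PowerSeries.coeff k (HH m) - PowerSeries.coeff k (HH m')) =
      RR k (qs m) (us m) (qs m') (us m') := by
  rw [branch m m' k h, RR, sum_sub_distrib, sum_sub_distrib, ← PowerSeries.coeff_mul,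
    ← PowerSeries.coeff_mul, ← PowerSeries.coeff_mul, ← map_sub]
  simp only [qs]
  congr 2
  rw [us, us, BQ_add]; ring

section dev

variable {ι : Type*}

lemma RR_av_right (F : Finset ι) (a : ι → ℕ → ℤ) (l k : ℕ) (P U : PowerSeries ℂ)
    (Φ Ψ : ι → PowerSeries ℂ) (f : ι) :
    av F a l (fun g => RR k P U (Φ g) (Ψ g)) f = RR k P U (avs F a l Φ f) (avs F a l Ψ f) := by
  simp only [RR]
  rw [av_sum]
  refine sum_congr rfl fun p _ => ?_
  rw [coeff_avs, coeff_avs]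
  have h1 : (fun g => ((p.1 : ℂ) - p.2) * (PowerSeries.coeff p.1 P * PowerSeries.coeff p.2 (Φ g)) -
      (PowerSeries.coeff p.1 U * PowerSeries.coeff p.2 (Φ g) -
      PowerSeries.coeff p.1 P * PowerSeries.coeff p.2 (Ψ g))) =
      fun g => (((p.1 : ℂ) - p.2) * PowerSeries.coeff p.1 P - PowerSeries.coeff p.1 U) *
        PowerSeries.coeff p.2 (Φ g) + PowerSeries.coeff p.1 P * PowerSeries.coeff p.2 (Ψ g) := by
    ext g; ring
  rw [h1, av_add, av_cmul, av_cmul]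
  ring

lemma RR_av_left (F : Finset ι) (a : ι → ℕ → ℤ) (l k : ℕ) (Q V : PowerSeries ℂ)
    (Φ Ψ : ι → PowerSeries ℂ) (f : ι) :
    av F a l (fun g => RR k (Φ g) (Ψ g) Q V) f = RR k (avs F a l Φ f) (avs F a l Ψ f) Q V := by
  simp only [RR]
  rw [av_sum]
  refine sum_congr rfl fun p _ => ?_
  rw [coeff_avs, coeff_avs]
  have h1 : (fun g => ((p.1 : ℂ) - p.2) * (PowerSeries.coeff p.1 (Φ g) * PowerSeries.coeff p.2 Q) -
      (PowerSeries.coeff p.1 (Ψ g) * PowerSeries.coeff p.2 Q -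
      PowerSeries.coeff p.1 (Φ g) * PowerSeries.coeff p.2 V)) =
      fun g => (((p.1 : ℂ) - p.2) * PowerSeries.coeff p.2 Q + PowerSeries.coeff p.2 V) *
        PowerSeries.coeff p.1 (Φ g) - PowerSeries.coeff p.2 Q * PowerSeries.coeff p.1 (Ψ g) := by
    ext g; ring
  rw [h1, av_sub, av_cmul, av_cmul]
  ring

/-- The averaged identity. -/
theorem avg_id {F : Finset ι} {a : ι → ℕ → ℤ} {M : ι → Multiset ℂ} {ℓ : ℂ} {n : ℕ} (hℓ : ℓ ≠ 0)
    (hco : ∀ f ∈ F, ∀ k, 1 ≤ k → k ≤ n → ℓ * PowerSeries.coeff k (HH (M f)) = (a f k : ℂ))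
    {f : ι} (hf : f ∈ F) {k : ℕ} (hk1 : 1 ≤ k) (hkn : k ≤ n) :
    (k : ℂ) * ((a f k : ℂ) - av F a k (fun g => (a g k : ℂ)) f) =
      ℓ * RR k (avs F a (k + 1) (fun g => qs (M g)) f) (avs F a (k + 1) (fun g => us (M g)) f)
        (avs F a k (fun g => qs (M g)) f) (avs F a k (fun g => us (M g)) f) := by
  have pair : ∀ f' ∈ node F a f (k + 1), ∀ g ∈ node F a f k,
      (k : ℂ) * ((a f k : ℂ) - (a g k : ℂ)) =
        ℓ * RR k (qs (M f')) (us (M f')) (qs (M g)) (us (M g)) := by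
    intro f' hf' g hg
    obtain ⟨f1, f2⟩ := mem_node.mp hf'
    obtain ⟨g1, g2⟩ := mem_node.mp hg
    have h1 := branch' (M f') (M g) k (by
      intro j hj
      rcases Nat.eq_zero_or_pos j with h0 | h0
      · rw [h0, constantCoeff_HH, constantCoeff_HH]
      · apply mul_left_cancel₀ hℓ
        rw [hco f' f1 j h0 (by omega), hco g g1 j h0 (by omega), f2 j h0 (by omega), g2 j h0 hj])
    rw [← h1, ← f2 k hk1 (by omega), ← hco f' f1 k hk1 hkn, ← hco g g1 k hk1 hkn]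
    ring
  have s1 : ∀ f' ∈ node F a f (k + 1),
      (k : ℂ) * ((a f k : ℂ) - av F a k (fun g => (a g k : ℂ)) f) =
        ℓ * RR k (qs (M f')) (us (M f')) (avs F a k (fun g => qs (M g)) f)
          (avs F a k (fun g => us (M g)) f) := by
    intro f' hf'
    rw [← RR_av_right, ← av_cmul, ← av_const (F := F) (a := a) (k := k) hf (a f k : ℂ), ← av_sub,
      ← av_cmul]
    apply av_eq
    intro g hg
    exact pair f' hf' g hg
  rw [← RR_av_left, ← av_cmul, ← av_eq (φ := fun _ => (k : ℂ) * ((a f k : ℂ) -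
    av F a k (fun g => (a g k : ℂ)) f)) s1, av_const hf]

lemma RR_bound (k : ℕ) (P U Q V : PowerSeries ℂ) :
    ‖RR k P U Q V‖ ≤ k * (√(NN k (P - Q)) * √(NN k Q)) +
      (√(NN k (U - V)) * √(NN k Q) + √(NN k (P - Q)) * √(NN k V)) := by
  have e1 : RR k P U Q V = ∑ p ∈ antidiagonal k, ((p.1 : ℂ) - p.2) *
      (PowerSeries.coeff p.1 (P - Q) * PowerSeries.coeff p.2 Q) -
      (PowerSeries.coeff k ((U - V) * Q) - PowerSeries.coeff k ((P - Q) * V)) := by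
    have h1 := antisymm k Q
    have h2 : PowerSeries.coeff k ((U - V) * Q) - PowerSeries.coeff k ((P - Q) * V) =
        PowerSeries.coeff k (U * Q) - PowerSeries.coeff k (P * V) := by
      rw [← map_sub, ← map_sub]; congr 1; ring
    rw [h2, PowerSeries.coeff_mul, PowerSeries.coeff_mul, RR, ← sum_sub_distrib, sum_sub_distrib]
    congr 1
    rw [← sub_zero (∑ p ∈ antidiagonal k, ((p.1 : ℂ) - p.2) *
      (PowerSeries.coeff p.1 P * PowerSeries.coeff p.2 Q)), ← h1, ← sum_sub_distrib]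
    refine sum_congr rfl fun p _ => ?_
    rw [map_sub]; ring
  rw [e1]
  refine (norm_sub_le _ _).trans (add_le_add ?_ ?_)
  · refine (norm_sum_le _ _).trans ?_
    have s3 : ∀ p ∈ antidiagonal k, ‖((p.1 : ℂ) - p.2) *
        (PowerSeries.coeff p.1 (P - Q) * PowerSeries.coeff p.2 Q)‖ ≤
        k * (‖PowerSeries.coeff p.1 (P - Q)‖ * ‖PowerSeries.coeff p.2 Q‖) := by
      intro p hp
      rw [HasAntidiagonal.mem_antidiagonal] at hp
      rw [norm_mul, norm_mul]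
      have s4 : ‖(p.1 : ℂ) - p.2‖ ≤ k := by
        have : ((p.1 : ℂ) - p.2) = (((p.1 : ℝ) - p.2 : ℝ) : ℂ) := by push_cast; ring
        rw [this, Complex.norm_real, Real.norm_eq_abs, abs_le]
        have e1 : (p.1 : ℝ) + p.2 = k := by exact_mod_cast hp
        have e2 : (0 : ℝ) ≤ p.1 := by positivity
        have e3 : (0 : ℝ) ≤ p.2 := by positivity
        constructor <;> linarith
      gcongr
    refine (sum_le_sum s3).trans ?_
    rw [← mul_sum]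
    have := conv_le k (P - Q) Q
    gcongr
  · refine (norm_sub_le _ _).trans (add_le_add (coeff_mul_le _ _ _) (coeff_mul_le _ _ _))

/-- The deviation bound. -/
theorem dev_le {F : Finset ι} {a : ι → ℕ → ℤ} {M : ι → Multiset ℂ} {ℓ : ℂ} {n : ℕ} (hℓ : ℓ ≠ 0)
    (hco : ∀ f ∈ F, ∀ k, 1 ≤ k → k ≤ n → ℓ * PowerSeries.coeff k (HH (M f)) = (a f k : ℂ))
    {T A : ℝ} (hq : ∀ f ∈ F, ∀ N, N ≤ n → NN N (qs (M f)) ≤ T ^ 2)
    (hu : ∀ f ∈ F, ∀ N, N ≤ n → NN N (us (M f)) ≤ T ^ 2 * (N * A))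
    {f : ι} (hf : f ∈ F) {k : ℕ} (hk1 : 1 ≤ k) (hkn : k ≤ n) :
    ‖(a f k : ℂ) - av F a k (fun g => (a g k : ℂ)) f‖ ^ 2 ≤
      3 * ‖ℓ‖ ^ 2 * T ^ 2 * ((1 + A / k) * NN k (avs F a (k + 1) (fun g => qs (M g)) f -
        avs F a k (fun g => qs (M g)) f) + NN k (avs F a (k + 1) (fun g => us (M g)) f -
        avs F a k (fun g => us (M g)) f) / k ^ 2) := by
  have h1 := avg_id hℓ hco hf hk1 hkn
  set Q' := avs F a (k + 1) (fun g => qs (M g)) f with hQ'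
  set Q := avs F a k (fun g => qs (M g)) f with hQ
  set U' := avs F a (k + 1) (fun g => us (M g)) f with hU'
  set U := avs F a k (fun g => us (M g)) f with hU
  set D : ℂ := (a f k : ℂ) - av F a k (fun g => (a g k : ℂ)) f with hD
  have hk0 : (0 : ℝ) < k := by exact_mod_cast hk1
  have h2 : (k : ℝ) * ‖D‖ = ‖ℓ‖ * ‖RR k Q' U' Q U‖ := by
    have := congrArg norm h1
    rwa [norm_mul, norm_mul, Complex.norm_natCast] at this
  have h3 := RR_bound k Q' U' Q U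
  have b1 : NN k Q ≤ T ^ 2 := NN_avs_le hf k k fun g hg => hq g hg k hkn
  have b2 : NN k U ≤ T ^ 2 * (k * A) := NN_avs_le hf k k fun g hg => hu g hg k hkn
  set x := √(NN k (Q' - Q)) with hx
  set y := √(NN k Q) with hy
  set z := √(NN k (U' - U)) with hz
  set w := √(NN k U) with hw
  have x0 : 0 ≤ x := Real.sqrt_nonneg _
  have y0 : 0 ≤ y := Real.sqrt_nonneg _
  have z0 : 0 ≤ z := Real.sqrt_nonneg _
  have w0 : 0 ≤ w := Real.sqrt_nonneg _
  have x2 : x ^ 2 = NN k (Q' - Q) := Real.sq_sqrt (NN_nonneg _ _)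
  have y2 : y ^ 2 = NN k Q := Real.sq_sqrt (NN_nonneg _ _)
  have z2 : z ^ 2 = NN k (U' - U) := Real.sq_sqrt (NN_nonneg _ _)
  have w2 : w ^ 2 = NN k U := Real.sq_sqrt (NN_nonneg _ _)
  have h4 : ((k : ℝ) * ‖D‖) ^ 2 ≤ ‖ℓ‖ ^ 2 * (3 * (k ^ 2 * (x ^ 2 * y ^ 2) + z ^ 2 * y ^ 2 +
      x ^ 2 * w ^ 2)) := by
    rw [h2, mul_pow]
    have h5 : ‖RR k Q' U' Q U‖ ^ 2 ≤ (k * (x * y) + (z * y + x * w)) ^ 2 := by gcongr
    have h6 : (k * (x * y) + (z * y + x * w)) ^ 2 ≤ 3 * (k ^ 2 * (x ^ 2 * y ^ 2) + z ^ 2 * y ^ 2 +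
      x ^ 2 * w ^ 2) := by
      nlinarith [sq_nonneg (k * (x * y) - z * y), sq_nonneg (k * (x * y) - x * w),
        sq_nonneg (z * y - x * w)]
    gcongr
    exact h5.trans h6
  have h5 : (k : ℝ) ^ 2 * ‖D‖ ^ 2 ≤ ‖ℓ‖ ^ 2 * (3 * (k ^ 2 * (x ^ 2 * T ^ 2) + z ^ 2 * T ^ 2 +
      x ^ 2 * (T ^ 2 * (k * A)))) := by
    rw [← mul_pow]
    refine h4.trans ?_
    rw [y2, w2]
    gcongr
  have h6 : (k : ℝ) ^ 2 * (3 * ‖ℓ‖ ^ 2 * T ^ 2 * ((1 + A / k) * NN k (Q' - Q) +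
      NN k (U' - U) / k ^ 2)) = ‖ℓ‖ ^ 2 * (3 * (k ^ 2 * (x ^ 2 * T ^ 2) + z ^ 2 * T ^ 2 +
      x ^ 2 * (T ^ 2 * (k * A)))) := by
    rw [x2, z2]
    field_simp
    ring
  rw [← h6] at h5
  exact le_of_mul_le_mul_left h5 (by positivity)

/-- The block bound. -/
theorem block_le {F : Finset ι} {a : ι → ℕ → ℤ} {M : ι → Multiset ℂ} {ℓ : ℂ} {n : ℕ} (hℓ : ℓ ≠ 0)
    (hco : ∀ f ∈ F, ∀ k, 1 ≤ k → k ≤ n → ℓ * PowerSeries.coeff k (HH (M f)) = (a f k : ℂ))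
    {T A : ℝ} (hA : n ≤ A) (hq : ∀ f ∈ F, ∀ N, N ≤ n → NN N (qs (M f)) ≤ T ^ 2)
    (hu : ∀ f ∈ F, ∀ N, N ≤ n → NN N (us (M f)) ≤ T ^ 2 * (N * A))
    {K : ℕ} (hK : 1 ≤ K) (s : Finset ℕ) (hs : ∀ k ∈ s, K ≤ k ∧ k < 2 * K ∧ k ≤ n) :
    ∑ k ∈ s, ∑ f ∈ F, ‖(a f k : ℂ) - av F a k (fun g => (a g k : ℂ)) f‖ ^ 2 ≤
      #F * (12 * (‖ℓ‖ * T ^ 2) ^ 2 * A) / K := by
  classical
  have hK0 : (0 : ℝ) < K := by exact_mod_cast hK
  rcases s.eq_empty_or_nonempty with he | ⟨k₀, hk₀⟩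
  · rw [he, sum_empty]
    have : (0 : ℝ) ≤ A := le_trans (by positivity) hA
    positivity
  have hKn : K ≤ n := by
    obtain ⟨h1, h2, h3⟩ := hs k₀ hk₀
    omega
  have hKA : (K : ℝ) ≤ A := le_trans (by exact_mod_cast hKn) hA
  have hA0 : 0 ≤ A := by linarith
  set N := min (2 * K) n with hN
  have hNn : N ≤ n := min_le_right _ _
  have hN2 : N ≤ 2 * K := min_le_left _ _
  set DQ : ℕ → ι → PowerSeries ℂ := fun k f => avs F a (k + 1) (fun g => qs (M g)) f -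
        avs F a k (fun g => qs (M g)) f with hDQ
  set DU : ℕ → ι → PowerSeries ℂ := fun k f => avs F a (k + 1) (fun g => us (M g)) f -
        avs F a k (fun g => us (M g)) f with hDU
  have h1 : ∀ k ∈ s, ∀ f ∈ F, ‖(a f k : ℂ) - av F a k (fun g => (a g k : ℂ)) f‖ ^ 2 ≤
      3 * ‖ℓ‖ ^ 2 * T ^ 2 * ((1 + A / K) * NN N (DQ k f) + NN N (DU k f) / K ^ 2) := by
    intro k hk f hf
    obtain ⟨hk1, hk2, hk3⟩ := hs k hk
    have hkN : k ≤ N := by rw [hN]; omega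
    have hkK : (K : ℝ) ≤ k := by exact_mod_cast hk1
    refine (dev_le hℓ hco hq hu hf (by omega) hk3).trans ?_
    have e1 := NN_mono hkN (DQ k f)
    have e2 := NN_mono hkN (DU k f)
    have e3 := NN_nonneg k (DQ k f)
    have e4 := NN_nonneg k (DU k f)
    have e5 := NN_nonneg N (DU k f)
    simp only [hDQ, hDU] at e1 e2 e3 e4 e5 ⊢
    gcongr
  have hsub : s ⊆ range (n + 1) := by
    intro k hk
    rw [mem_range]
    have := (hs k hk).2.2
    omega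
  have h2 : ∑ k ∈ s, ∑ f ∈ F, NN N (DQ k f) ≤ #F * T ^ 2 := by
    calc ∑ k ∈ s, ∑ f ∈ F, NN N (DQ k f) ≤ ∑ k ∈ range (n + 1), ∑ f ∈ F, NN N (DQ k f) :=
          sum_le_sum_of_subset_of_nonneg hsub fun _ _ _ => sum_nonneg fun _ _ => NN_nonneg _ _
      _ ≤ ∑ f ∈ F, NN N (qs (M f)) := sum_NN F a (n + 1) N _
      _ ≤ ∑ f ∈ F, T ^ 2 := sum_le_sum fun f hf => hq f hf N hNn
      _ = _ := by rw [sum_const, nsmul_eq_mul]
  have h3 : ∑ k ∈ s, ∑ f ∈ F, NN N (DU k f) ≤ #F * (T ^ 2 * (2 * K * A)) := by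
    calc ∑ k ∈ s, ∑ f ∈ F, NN N (DU k f) ≤ ∑ k ∈ range (n + 1), ∑ f ∈ F, NN N (DU k f) :=
          sum_le_sum_of_subset_of_nonneg hsub fun _ _ _ => sum_nonneg fun _ _ => NN_nonneg _ _
      _ ≤ ∑ f ∈ F, NN N (us (M f)) := sum_NN F a (n + 1) N _
      _ ≤ ∑ f ∈ F, T ^ 2 * (2 * K * A) := by
          refine sum_le_sum fun f hf => (hu f hf N hNn).trans ?_
          have : (N : ℝ) ≤ 2 * K := by exact_mod_cast hN2
          gcongr
      _ = _ := by rw [sum_const, nsmul_eq_mul]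
  calc ∑ k ∈ s, ∑ f ∈ F, ‖(a f k : ℂ) - av F a k (fun g => (a g k : ℂ)) f‖ ^ 2
      ≤ ∑ k ∈ s, ∑ f ∈ F, 3 * ‖ℓ‖ ^ 2 * T ^ 2 * ((1 + A / K) * NN N (DQ k f) +
        NN N (DU k f) / K ^ 2) := sum_le_sum fun k hk => sum_le_sum fun f hf => h1 k hk f hf
    _ = 3 * ‖ℓ‖ ^ 2 * T ^ 2 * ((1 + A / K) * ∑ k ∈ s, ∑ f ∈ F, NN N (DQ k f) +
        (∑ k ∈ s, ∑ f ∈ F, NN N (DU k f)) / K ^ 2) := by
        simp only [← mul_sum, sum_add_distrib, ← sum_div]
    _ ≤ 3 * ‖ℓ‖ ^ 2 * T ^ 2 * ((1 + A / K) * (#F * T ^ 2) +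
        (#F * (T ^ 2 * (2 * K * A))) / K ^ 2) := by gcongr
    _ = #F * (3 * (‖ℓ‖ * T ^ 2) ^ 2 * (K + 3 * A)) / K := by
        field_simp
        ring
    _ ≤ #F * (12 * (‖ℓ‖ * T ^ 2) ^ 2 * A) / K := by
        have h4 : 3 * (‖ℓ‖ * T ^ 2) ^ 2 * (K + 3 * A) ≤ 12 * (‖ℓ‖ * T ^ 2) ^ 2 * A := by
          have : 0 ≤ (‖ℓ‖ * T ^ 2) ^ 2 := sq_nonneg _
          nlinarith
        exact div_le_div_of_nonneg_right (mul_le_mul_of_nonneg_left h4 (by positivity))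
          (by positivity)

end dev

end Pool.Agent.Helper79.LC
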