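import Pool.Agent.Helper79.LG.Mart

/-!
A Kraft inequality for trees of integer sequences, and the resulting bound for the number of
leaves.
-/

open Finset

namespace Pool.Agent.Helper79.LC

section kraft

variable {ι : Type*}

/-- weight of one coordinate -/
noncomputable def wt (lam mu : ℕ → ℝ) (a m : ι → ℕ → ℤ) (g : ι) (k : ℕ) : ℝ :=
  Real.exp (-(lam k + mu k * |((a g k - m g k : ℤ) : ℝ)|))

theorem kraft {F : Finset ι} {a m : ι → ℕ → ℤ} {n : ℕ} {lam mu : ℕ → ℝ}
    (inj : ∀ f ∈ F, ∀ g ∈ F, (∀ k, 1 ≤ k → k ≤ n → a f k = a g k) → f = g)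
    (hm : ∀ f ∈ F, ∀ k, 1 ≤ k → k ≤ n → ∀ g ∈ node F a f k, m g k = m f k)
    (hlm : ∀ k, 1 ≤ k → k ≤ n → ∀ S : Finset ℤ,
      ∑ z ∈ S, Real.exp (-(mu k * |(z : ℝ)|)) ≤ Real.exp (lam k)) :
    ∀ d j, j + d = n → ∀ f ∈ F,
      ∑ g ∈ node F a f (j + 1), ∏ k ∈ Ioc j n, wt lam mu a m g k ≤ 1 := by
  classical
  intro d
  induction d with
  | zero =>
    intro j hj f hf
    have hjn : j = n := by omega
    subst hjn
    have h1 : node F a f (j + 1) = {f} := by
      ext g
      rw [mem_node, mem_singleton]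
      constructor
      · rintro ⟨h1, h2⟩
        exact inj g h1 f hf fun k hk1 hk2 => h2 k hk1 (by omega)
      · rintro rfl
        exact ⟨hf, fun _ _ _ => rfl⟩
    rw [h1]
    simp
  | succ d ih =>
    intro j hj f hf
    have hI : Ioc j n = insert (j + 1) (Ioc (j + 1) n) := by
      ext x; simp only [mem_Ioc, mem_insert]; omega
    have hnot : j + 1 ∉ Ioc (j + 1) n := by simp
    set S : Finset ℤ := (node F a f (j + 1)).image fun g => a g (j + 1) with hS
    have hmaps : ∀ g ∈ node F a f (j + 1), a g (j + 1) ∈ S := fun g hg => mem_image_of_mem _ hg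
    rw [← sum_fiberwise_of_maps_to hmaps]
    have h1 : ∀ z ∈ S, ∑ g ∈ (node F a f (j + 1)).filter (fun g => a g (j + 1) = z),
        ∏ k ∈ Ioc j n, wt lam mu a m g k ≤
        Real.exp (-(lam (j + 1) + mu (j + 1) * |((z - m f (j + 1) : ℤ) : ℝ)|)) := by
      intro z hz
      obtain ⟨g₀, hg₀, rfl⟩ := mem_image.mp hz
      have hg₀F := (mem_node.mp hg₀).1
      have h2 : (node F a f (j + 1)).filter (fun g => a g (j + 1) = a g₀ (j + 1)) =
          node F a g₀ (j + 2) := by
        ext g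
        rw [mem_filter, mem_node, mem_node]
        have hg₀' := (mem_node.mp hg₀).2
        constructor
        · rintro ⟨⟨h3, h4⟩, h5⟩
          refine ⟨h3, fun i hi1 hi2 => ?_⟩
          by_cases hij : i = j + 1
          · rw [hij, h5]
          · rw [h4 i hi1 (by omega), hg₀' i hi1 (by omega)]
        · rintro ⟨h3, h4⟩
          refine ⟨⟨h3, fun i hi1 hi2 => ?_⟩, h4 (j + 1) (by omega) (by omega)⟩
          rw [h4 i hi1 (by omega), hg₀' i hi1 (by omega)]
      rw [h2]
      have h3 := ih (j + 1) (by omega) g₀ hg₀F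
      have h4 : ∀ g ∈ node F a g₀ (j + 1 + 1), ∏ k ∈ Ioc j n, wt lam mu a m g k =
          Real.exp (-(lam (j + 1) + mu (j + 1) * |((a g₀ (j + 1) - m f (j + 1) : ℤ) : ℝ)|)) *
          ∏ k ∈ Ioc (j + 1) n, wt lam mu a m g k := by
        intro g hg
        rw [hI, prod_insert hnot]
        congr 1
        rw [wt]
        have e1 : a g (j + 1) = a g₀ (j + 1) := (mem_node.mp hg).2 (j + 1) (by omega) (by omega)
        have e2 : g ∈ node F a g₀ (j + 1) := node_mono (by omega) hg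
        rw [node_congr hg₀] at e2
        have e3 := hm f hf (j + 1) (by omega) (by omega) g e2
        rw [e1, e3]
      rw [sum_congr rfl h4, ← mul_sum]
      exact mul_le_of_le_one_right (Real.exp_pos _).le h3
    refine (sum_le_sum h1).trans ?_
    have h5 := hlm (j + 1) (by omega) (by omega) (S.image fun z => z - m f (j + 1))
    rw [sum_image (by
      intro x _ y _ h
      simpa using h)] at h5
    calc ∑ z ∈ S, Real.exp (-(lam (j + 1) + mu (j + 1) * |((z - m f (j + 1) : ℤ) : ℝ)|))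
        = Real.exp (-lam (j + 1)) *
          ∑ z ∈ S, Real.exp (-(mu (j + 1) * |((z - m f (j + 1) : ℤ) : ℝ)|)) := by
          rw [mul_sum]
          refine sum_congr rfl fun z _ => ?_
          rw [← Real.exp_add]
          congr 1; ring
      _ ≤ Real.exp (-lam (j + 1)) * Real.exp (lam (j + 1)) := by gcongr
      _ = 1 := by rw [← Real.exp_add]; simp

/-- The number of leaves. -/
theorem leaves {F : Finset ι} {a m : ι → ℕ → ℤ} {n : ℕ} {lam mu : ℕ → ℝ}
    (inj : ∀ f ∈ F, ∀ g ∈ F, (∀ k, 1 ≤ k → k ≤ n → a f k = a g k) → f = g)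
    (hm : ∀ f ∈ F, ∀ k, 1 ≤ k → k ≤ n → ∀ g ∈ node F a f k, m g k = m f k)
    (hlm : ∀ k, 1 ≤ k → k ≤ n → ∀ S : Finset ℤ,
      ∑ z ∈ S, Real.exp (-(mu k * |(z : ℝ)|)) ≤ Real.exp (lam k)) {s : ℝ}
    (hs : ∑ g ∈ F, ∑ k ∈ Ioc 0 n, (lam k + mu k * |((a g k - m g k : ℤ) : ℝ)|) ≤ #F * s) :
    (#F : ℝ) ≤ Real.exp s := by
  classical
  rcases F.eq_empty_or_nonempty with he | ⟨f, hf⟩
  · rw [he]; simp [Real.exp_nonneg]
  have h1 := kraft inj hm hlm n 0 (by omega) f hf
  have h2 : node F a f (0 + 1) = F := by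
    ext g
    rw [mem_node]
    constructor
    · exact fun h => h.1
    · intro h; exact ⟨h, fun j hj1 hj2 => by omega⟩
  rw [h2] at h1
  set E : ι → ℝ := fun g => ∑ k ∈ Ioc 0 n, (lam k + mu k * |((a g k - m g k : ℤ) : ℝ)|) with hE
  have h3 : ∀ g, ∏ k ∈ Ioc 0 n, wt lam mu a m g k = Real.exp (-(E g)) := by
    intro g
    rw [hE, ← sum_neg_distrib, Real.exp_sum]
    rfl
  simp_rw [h3] at h1
  have h4 : ∀ g, Real.exp (-s) * (1 + (s - E g)) ≤ Real.exp (-(E g)) := by
    intro g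
    have h5 := Real.add_one_le_exp (s - E g)
    calc Real.exp (-s) * (1 + (s - E g)) ≤ Real.exp (-s) * Real.exp (s - E g) := by
          gcongr; linarith
      _ = Real.exp (-(E g)) := by rw [← Real.exp_add]; congr 1; ring
  have h5 : Real.exp (-s) * #F ≤ 1 := by
    calc Real.exp (-s) * #F ≤ Real.exp (-s) * (#F + (#F * s - ∑ g ∈ F, E g)) := by
          have : 0 ≤ #F * s - ∑ g ∈ F, E g := by linarith
          have := Real.exp_pos (-s)
          gcongr
          linarith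
      _ = ∑ g ∈ F, Real.exp (-s) * (1 + (s - E g)) := by
          rw [← mul_sum, sum_add_distrib, sum_sub_distrib, sum_const, sum_const, nsmul_eq_mul,
            nsmul_eq_mul, mul_one]
      _ ≤ ∑ g ∈ F, Real.exp (-(E g)) := sum_le_sum fun g _ => h4 g
      _ ≤ 1 := h1
  rw [Real.exp_neg, inv_mul_le_iff₀ (Real.exp_pos _), mul_one] at h5
  exact h5

end kraft

/-- Two-sided geometric sums. -/
lemma geo_int {θ : ℝ} (h0 : 0 < θ) (h1 : θ < 1) (S : Finset ℤ) :
    ∑ z ∈ S, θ ^ z.natAbs ≤ (1 + θ) / (1 - θ) := by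
  classical
  have hsum := summable_geometric_of_lt_one h0.le h1
  have htsum := tsum_geometric_of_lt_one h0.le h1
  have hA : ∑ z ∈ S.filter (fun z => 0 ≤ z), θ ^ z.natAbs ≤ (1 - θ)⁻¹ := by
    have e1 : ∑ z ∈ S.filter (fun z => 0 ≤ z), θ ^ z.natAbs =
        ∑ i ∈ (S.filter (fun z => 0 ≤ z)).image Int.natAbs, θ ^ i := by
      rw [sum_image]
      intro x hx y hy hxy
      have hx := (mem_filter.mp (mem_coe.mp hx)).2
      have hy := (mem_filter.mp (mem_coe.mp hy)).2
      omega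
    rw [e1, ← htsum]
    exact hsum.sum_le_tsum _ fun i _ => by positivity
  have hB : ∑ z ∈ S.filter (fun z => ¬ 0 ≤ z), θ ^ z.natAbs ≤ θ * (1 - θ)⁻¹ := by
    have e1 : ∑ z ∈ S.filter (fun z => ¬ 0 ≤ z), θ ^ z.natAbs =
        θ * ∑ i ∈ (S.filter (fun z => ¬ 0 ≤ z)).image (fun z => z.natAbs - 1), θ ^ i := by
      rw [sum_image, mul_sum]
      · refine sum_congr rfl fun z hz => ?_
        have hz := (mem_filter.mp hz).2
        rw [← pow_succ']
        congr 1; omega
      · intro x hx y hy hxy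
        have hx := (mem_filter.mp (mem_coe.mp hx)).2
        have hy := (mem_filter.mp (mem_coe.mp hy)).2
        have hxy : x.natAbs - 1 = y.natAbs - 1 := hxy
        omega
    rw [e1, ← htsum]
    gcongr
    exact hsum.sum_le_tsum _ fun i _ => by positivity
  rw [← sum_filter_add_sum_filter_not S (fun z => 0 ≤ z)]
  calc _ ≤ (1 - θ)⁻¹ + θ * (1 - θ)⁻¹ := add_le_add hA hB
    _ = _ := by ring

lemma geo_exp {θ : ℝ} (h0 : 0 < θ) (h1 : θ < 1) (S : Finset ℤ) :
    ∑ z ∈ S, Real.exp (-(-Real.log θ * |(z : ℝ)|)) ≤ Real.exp (Real.log ((1 + θ) / (1 - θ))) := by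
  have h2 : 0 < (1 + θ) / (1 - θ) := div_pos (by linarith) (by linarith)
  rw [Real.exp_log h2]
  refine le_trans (le_of_eq ?_) (geo_int h0 h1 S)
  refine sum_congr rfl fun z _ => ?_
  have h3 : -(-Real.log θ * |(z : ℝ)|) = (z.natAbs : ℝ) * Real.log θ := by
    rw [Nat.cast_natAbs]; push_cast; ring
  rw [h3, Real.exp_nat_mul, Real.exp_log h0]

end Pool.Agent.Helper79.LC
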