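import Pool.Agent.Helper79.LC.Tree
import Pool.Agent.Helper79.LC.Branch

/-!
Averages over the nodes of a tree of integer sequences.
-/

open Finset

namespace Pool.Agent.Helper79.LC

section mart

variable {ι : Type*} {K : Type*} [Field K] [CharZero K]

lemma self_mem_node {F : Finset ι} {a : ι → ℕ → ℤ} {f : ι} {k : ℕ} (hf : f ∈ F) :
    f ∈ node F a f k := mem_node.mpr ⟨hf, fun _ _ _ => rfl⟩

lemma node_congr {F : Finset ι} {a : ι → ℕ → ℤ} {f g : ι} {k : ℕ} (hg : g ∈ node F a f k) :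
    node F a g k = node F a f k := by
  obtain ⟨_, h⟩ := mem_node.mp hg
  ext x
  rw [mem_node, mem_node]
  constructor
  · rintro ⟨h1, h2⟩
    exact ⟨h1, fun j hj1 hj2 => (h2 j hj1 hj2).trans (h j hj1 hj2)⟩
  · rintro ⟨h1, h2⟩
    exact ⟨h1, fun j hj1 hj2 => (h2 j hj1 hj2).trans (h j hj1 hj2).symm⟩

lemma node_mono {F : Finset ι} {a : ι → ℕ → ℤ} {f : ι} {k l : ℕ} (h : k ≤ l) :
    node F a f l ⊆ node F a f k := by
  intro x hx
  rw [mem_node] at hx ⊢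
  exact ⟨hx.1, fun j hj1 hj2 => hx.2 j hj1 (by omega)⟩

lemma node_subset {F : Finset ι} {a : ι → ℕ → ℤ} {f : ι} {k : ℕ} : node F a f k ⊆ F :=
  fun _ hx => (mem_node.mp hx).1

lemma node_symm {F : Finset ι} {a : ι → ℕ → ℤ} {f g : ι} {k : ℕ} (hf : f ∈ F)
    (hg : g ∈ node F a f k) : f ∈ node F a g k := by
  rw [node_congr hg]; exact self_mem_node hf

lemma card_node_ne {F : Finset ι} {a : ι → ℕ → ℤ} {f : ι} {k : ℕ} (hf : f ∈ F) :
    (#(node F a f k) : K) ≠ 0 := by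
  have : #(node F a f k) ≠ 0 := (card_pos.mpr ⟨f, self_mem_node hf⟩).ne'
  exact_mod_cast this

/-- average over a node -/
noncomputable def av (F : Finset ι) (a : ι → ℕ → ℤ) (k : ℕ) (φ : ι → K) (f : ι) : K :=
  (#(node F a f k) : K)⁻¹ * ∑ g ∈ node F a f k, φ g

lemma av_congr {F : Finset ι} {a : ι → ℕ → ℤ} {f g : ι} {k : ℕ} (φ : ι → K)
    (hg : g ∈ node F a f k) : av F a k φ g = av F a k φ f := by
  rw [av, av, node_congr hg]

/-- sums over saturated sets -/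
lemma sum_av {F : Finset ι} {a : ι → ℕ → ℤ} {k : ℕ} (S : Finset ι) (hS : S ⊆ F)
    (hsat : ∀ f ∈ S, node F a f k ⊆ S) (φ : ι → K) :
    ∑ f ∈ S, av F a k φ f = ∑ f ∈ S, φ f := by
  simp_rw [av, mul_sum]
  rw [sum_comm' (t' := S) (s' := fun g => node F a g k)]
  · refine sum_congr rfl fun g hg => ?_
    have h1 : ∀ f ∈ node F a g k, (#(node F a f k) : K)⁻¹ * φ g = (#(node F a g k) : K)⁻¹ * φ g := by
      intro f hf
      rw [node_congr hf]
    rw [sum_congr rfl h1, sum_const, nsmul_eq_mul, ← mul_assoc,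
      mul_inv_cancel₀ (card_node_ne (hS hg)), one_mul]
  · intro x y
    constructor
    · rintro ⟨hx, hy⟩
      exact ⟨node_symm (hS hx) hy, hsat x hx hy⟩
    · rintro ⟨hx, hy⟩
      exact ⟨hsat y hy hx, node_symm (hS hy) hx⟩

lemma sum_av_all (F : Finset ι) (a : ι → ℕ → ℤ) (k : ℕ) (φ : ι → K) :
    ∑ f ∈ F, av F a k φ f = ∑ f ∈ F, φ f :=
  sum_av F (subset_refl _) (fun _ _ => node_subset) φ

lemma sum_av_node {F : Finset ι} {a : ι → ℕ → ℤ} {f : ι} {k l : ℕ} (hkl : k ≤ l) (φ : ι → K) :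
    ∑ g ∈ node F a f k, av F a l φ g = ∑ g ∈ node F a f k, φ g := by
  apply sum_av _ node_subset
  intro g hg
  refine (node_mono hkl).trans ?_
  rw [node_congr hg]

lemma av_av {F : Finset ι} {a : ι → ℕ → ℤ} {f : ι} {k l : ℕ} (hkl : k ≤ l) (φ : ι → K) :
    av F a k (av F a l φ) f = av F a k φ f := by
  rw [av, av, sum_av_node hkl]

lemma av_mul_right {F : Finset ι} {a : ι → ℕ → ℤ} {f : ι} {k : ℕ} (φ ψ : ι → K)
    (hψ : ∀ g ∈ node F a f k, ψ g = ψ f) :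
    av F a k (fun g => φ g * ψ g) f = av F a k φ f * ψ f := by
  rw [av, av, mul_assoc, sum_mul]
  congr 1
  exact sum_congr rfl fun g hg => by rw [hψ g hg]

end mart

section orth

variable {ι : Type*}

/-- orthogonality of conditional averages -/
lemma orth (F : Finset ι) (a : ι → ℕ → ℤ) (k : ℕ) (ψ : ι → ℂ) :
    ∑ f ∈ F, ‖ψ f - av F a k ψ f‖ ^ 2 = ∑ f ∈ F, ‖ψ f‖ ^ 2 - ∑ f ∈ F, ‖av F a k ψ f‖ ^ 2 := by
  have h1 : ∀ f, ‖ψ f - av F a k ψ f‖ ^ 2 = ‖ψ f‖ ^ 2 + ‖av F a k ψ f‖ ^ 2 -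
      2 * (ψ f * starRingEnd ℂ (av F a k ψ f)).re := by
    intro f
    rw [Complex.sq_norm, Complex.sq_norm, Complex.sq_norm, Complex.normSq_sub]
  have h2 : ∑ f ∈ F, ψ f * starRingEnd ℂ (av F a k ψ f) =
      ∑ f ∈ F, ((‖av F a k ψ f‖ ^ 2 : ℝ) : ℂ) := by
    rw [← sum_av_all F a k fun f => ψ f * starRingEnd ℂ (av F a k ψ f)]
    refine sum_congr rfl fun f hf => ?_
    rw [av_mul_right ψ (fun g => starRingEnd ℂ (av F a k ψ g)), Complex.mul_conj,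
      Complex.normSq_eq_norm_sq]
    intro g hg
    rw [av_congr ψ hg]
  have h3 : ∑ f ∈ F, (ψ f * starRingEnd ℂ (av F a k ψ f)).re = ∑ f ∈ F, ‖av F a k ψ f‖ ^ 2 := by
    have := congrArg Complex.re h2
    rw [Complex.re_sum, Complex.re_sum] at this
    rw [this]
    exact sum_congr rfl fun f _ => Complex.ofReal_re _
  simp_rw [h1]
  rw [sum_sub_distrib, sum_add_distrib, ← mul_sum, h3]
  ring

lemma orth_step (F : Finset ι) (a : ι → ℕ → ℤ) (k : ℕ) (φ : ι → ℂ) :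
    ∑ f ∈ F, ‖av F a (k + 1) φ f - av F a k φ f‖ ^ 2 =
      ∑ f ∈ F, ‖av F a (k + 1) φ f‖ ^ 2 - ∑ f ∈ F, ‖av F a k φ f‖ ^ 2 := by
  have h := orth F a k (av F a (k + 1) φ)
  have h1 : ∀ f, av F a k (av F a (k + 1) φ) f = av F a k φ f := fun f => av_av (by omega) φ
  simp_rw [h1] at h
  exact h

lemma orth_sum (F : Finset ι) (a : ι → ℕ → ℤ) (M : ℕ) (φ : ι → ℂ) :
    ∑ k ∈ range M, ∑ f ∈ F, ‖av F a (k + 1) φ f - av F a k φ f‖ ^ 2 ≤ ∑ f ∈ F, ‖φ f‖ ^ 2 := by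
  simp_rw [orth_step]
  rw [sum_range_sub (fun k => ∑ f ∈ F, ‖av F a k φ f‖ ^ 2) M]
  have h1 := orth F a M φ
  have h2 : 0 ≤ ∑ f ∈ F, ‖φ f - av F a M φ f‖ ^ 2 := sum_nonneg fun _ _ => sq_nonneg _
  have h3 : 0 ≤ ∑ f ∈ F, ‖av F a 0 φ f‖ ^ 2 := sum_nonneg fun _ _ => sq_nonneg _
  linarith

end orth

section series

variable {ι : Type*}

/-- average of power series over a node -/
noncomputable def avs (F : Finset ι) (a : ι → ℕ → ℤ) (k : ℕ) (Φ : ι → PowerSeries ℂ) (f : ι) :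
    PowerSeries ℂ :=
  PowerSeries.C ((#(node F a f k) : ℂ)⁻¹) * ∑ g ∈ node F a f k, Φ g

lemma coeff_avs (F : Finset ι) (a : ι → ℕ → ℤ) (k : ℕ) (Φ : ι → PowerSeries ℂ) (f : ι) (i : ℕ) :
    PowerSeries.coeff i (avs F a k Φ f) = av F a k (fun g => PowerSeries.coeff i (Φ g)) f := by
  rw [avs, av, PowerSeries.coeff_C_mul, map_sum]

lemma avs_congr {F : Finset ι} {a : ι → ℕ → ℤ} {f g : ι} {k : ℕ} (Φ : ι → PowerSeries ℂ)
    (hg : g ∈ node F a f k) : avs F a k Φ g = avs F a k Φ f := by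
  rw [avs, avs, node_congr hg]

lemma C_card_avs {F : Finset ι} {a : ι → ℕ → ℤ} {f : ι} (hf : f ∈ F) (k : ℕ)
    (Φ : ι → PowerSeries ℂ) :
    PowerSeries.C (#(node F a f k) : ℂ) * avs F a k Φ f = ∑ g ∈ node F a f k, Φ g := by
  rw [avs, ← mul_assoc, ← map_mul, mul_inv_cancel₀ (card_node_ne hf), map_one, one_mul]

/-- total quadratic variation -/
lemma sum_NN (F : Finset ι) (a : ι → ℕ → ℤ) (M N : ℕ) (Φ : ι → PowerSeries ℂ) :
    ∑ k ∈ range M, ∑ f ∈ F, NN N (avs F a (k + 1) Φ f - avs F a k Φ f) ≤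
      ∑ f ∈ F, NN N (Φ f) := by
  have h1 : ∀ k f, NN N (avs F a (k + 1) Φ f - avs F a k Φ f) = ∑ i ∈ range (N + 1),
      ‖av F a (k + 1) (fun g => PowerSeries.coeff i (Φ g)) f -
        av F a k (fun g => PowerSeries.coeff i (Φ g)) f‖ ^ 2 := by
    intro k f
    rw [NN]
    refine sum_congr rfl fun i _ => ?_
    rw [map_sub, coeff_avs, coeff_avs]
  simp_rw [h1, NN]
  calc ∑ k ∈ range M, ∑ f ∈ F, ∑ i ∈ range (N + 1),
        ‖av F a (k + 1) (fun g => PowerSeries.coeff i (Φ g)) f -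
        av F a k (fun g => PowerSeries.coeff i (Φ g)) f‖ ^ 2
      = ∑ k ∈ range M, ∑ i ∈ range (N + 1), ∑ f ∈ F,
        ‖av F a (k + 1) (fun g => PowerSeries.coeff i (Φ g)) f -
        av F a k (fun g => PowerSeries.coeff i (Φ g)) f‖ ^ 2 := sum_congr rfl fun _ _ => sum_comm
    _ = ∑ i ∈ range (N + 1), ∑ k ∈ range M, ∑ f ∈ F,
        ‖av F a (k + 1) (fun g => PowerSeries.coeff i (Φ g)) f -
        av F a k (fun g => PowerSeries.coeff i (Φ g)) f‖ ^ 2 := sum_comm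
    _ ≤ ∑ i ∈ range (N + 1), ∑ f ∈ F, ‖PowerSeries.coeff i (Φ f)‖ ^ 2 :=
        sum_le_sum fun i _ => orth_sum F a M _
    _ = ∑ f ∈ F, ∑ i ∈ range (N + 1), ‖PowerSeries.coeff i (Φ f)‖ ^ 2 := sum_comm

/-- averages inherit bounds -/
lemma NN_avs_le {F : Finset ι} {a : ι → ℕ → ℤ} {f : ι} (hf : f ∈ F) (k N : ℕ)
    {Φ : ι → PowerSeries ℂ} {B : ℝ} (hB : ∀ g ∈ F, NN N (Φ g) ≤ B) :
    NN N (avs F a k Φ f) ≤ B := by
  have hc : (0 : ℝ) < #(node F a f k) := by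
    have : 0 < #(node F a f k) := card_pos.mpr ⟨f, self_mem_node hf⟩
    exact_mod_cast this
  have h1 : ∀ i, ‖PowerSeries.coeff i (avs F a k Φ f)‖ ^ 2 ≤
      (#(node F a f k) : ℝ)⁻¹ * ∑ g ∈ node F a f k, ‖PowerSeries.coeff i (Φ g)‖ ^ 2 := by
    intro i
    rw [coeff_avs, av, norm_mul, norm_inv, Complex.norm_natCast, mul_pow]
    have h2 : ‖∑ g ∈ node F a f k, PowerSeries.coeff i (Φ g)‖ ^ 2 ≤
        #(node F a f k) * ∑ g ∈ node F a f k, ‖PowerSeries.coeff i (Φ g)‖ ^ 2 := by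
      have h3 := norm_sum_le (node F a f k) fun g => PowerSeries.coeff i (Φ g)
      have h4 := sq_sum_le_card_mul_sum_sq (s := node F a f k)
        (f := fun g => ‖PowerSeries.coeff i (Φ g)‖)
      refine le_trans ?_ h4
      gcongr
    calc ((#(node F a f k) : ℝ)⁻¹) ^ 2 * ‖∑ g ∈ node F a f k, PowerSeries.coeff i (Φ g)‖ ^ 2
        ≤ ((#(node F a f k) : ℝ)⁻¹) ^ 2 *
          (#(node F a f k) * ∑ g ∈ node F a f k, ‖PowerSeries.coeff i (Φ g)‖ ^ 2) := by gcongr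
      _ = _ := by field_simp
  calc NN N (avs F a k Φ f) ≤ ∑ i ∈ range (N + 1),
        (#(node F a f k) : ℝ)⁻¹ * ∑ g ∈ node F a f k, ‖PowerSeries.coeff i (Φ g)‖ ^ 2 :=
        sum_le_sum fun i _ => h1 i
    _ = (#(node F a f k) : ℝ)⁻¹ * ∑ g ∈ node F a f k, NN N (Φ g) := by
        rw [← mul_sum, sum_comm]; rfl
    _ ≤ (#(node F a f k) : ℝ)⁻¹ * ∑ g ∈ node F a f k, B := by
        gcongr with g hg
        exact hB g (node_subset hg)
    _ = B := by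
        rw [sum_const, nsmul_eq_mul, ← mul_assoc, inv_mul_cancel₀ hc.ne', one_mul]

end series

end Pool.Agent.Helper79.LC
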