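import Pool.Agent.Helper79.LG.Kraft

/-!
Choice of the parameters in the Kraft inequality.
-/

open Finset

namespace Pool.Agent.Helper79.LC

/-- the ratio used in block `j` -/
noncomputable def thet (J j : ℕ) : ℝ :=
  if j ≤ J then 1 - (1 / 2) ^ (J + 1 - j) else (1 / 4) ^ (j - J) / 2

/-- cost of block `j` -/
noncomputable def cost (J j : ℕ) : ℝ :=
  if j ≤ J then 2 ^ j * ((J : ℝ) - j + 4) else 2 ^ J * ((1 / 2) ^ (j - J) * (8 * ((j - J : ℕ) : ℝ) + 6))

lemma thet_pos (J j : ℕ) : 0 < thet J j := by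
  rw [thet]
  split_ifs with h
  · have h1 : ((1 : ℝ) / 2) ^ (J + 1 - j) ≤ (1 / 2) ^ 1 :=
      pow_le_pow_of_le_one (by norm_num) (by norm_num) (by omega)
    linarith
  · positivity

lemma thet_lt (J j : ℕ) : thet J j < 1 := by
  rw [thet]
  split_ifs with h
  · have h1 : 0 < ((1 : ℝ) / 2) ^ (J + 1 - j) := by positivity
    linarith
  · have h1 : ((1 : ℝ) / 4) ^ (j - J) ≤ 1 := pow_le_one₀ (by norm_num) (by norm_num)
    linarith

lemma cost_nonneg (J j : ℕ) : 0 ≤ cost J j := by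
  rw [cost]
  split_ifs with h
  · have : (j : ℝ) ≤ J := by exact_mod_cast h
    have : 0 ≤ (J : ℝ) - j + 4 := by linarith
    positivity
  · positivity

lemma log_two_le_one : Real.log 2 ≤ 1 := by
  have := Real.log_two_lt_d9
  linarith

/-- cost of one block -/
lemma block_cost (J j : ℕ) {B : ℝ} (hB1 : B ≤ 2 * 2 ^ J)
    (hB2 : B ≤ 4 * (2 ^ J) ^ 2 / 2 ^ j) :
    2 ^ j * Real.log ((1 + thet J j) / (1 - thet J j)) + -Real.log (thet J j) * B ≤ cost J j := by
  have h0 := thet_pos J j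
  have h1 := thet_lt J j
  have hmu : 0 ≤ -Real.log (thet J j) := by
    have := Real.log_nonpos h0.le h1.le
    linarith
  by_cases h : j ≤ J
  · obtain ⟨i, rfl⟩ := Nat.exists_eq_add_of_le h
    have e1 : j + i + 1 - j = i + 1 := by omega
    have ht : thet (j + i) j = 1 - (1 / 2) ^ (i + 1) := by rw [thet, if_pos h, e1]
    set δ : ℝ := (1 / 2) ^ (i + 1) with hδ
    have hδ0 : 0 < δ := by positivity
    have hδ1 : δ ≤ 1 / 2 := by
      have : ((1 : ℝ) / 2) ^ (i + 1) ≤ (1 / 2) ^ 1 :=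
        pow_le_pow_of_le_one (by norm_num) (by norm_num) (by omega)
      linarith
    have hlam : Real.log ((1 + thet (j + i) j) / (1 - thet (j + i) j)) ≤ i + 2 := by
      have e2 : (1 + thet (j + i) j) / (1 - thet (j + i) j) ≤ 2 ^ (i + 2) := by
        rw [ht]
        have e3 : 1 - (1 - δ) = δ := by ring
        rw [e3, div_le_iff₀ hδ0, hδ]
        have e4 : (2 : ℝ) ^ (i + 2) * (1 / 2) ^ (i + 1) = 2 := by
          rw [pow_succ (2 : ℝ) (i + 1), mul_assoc, mul_comm (2 : ℝ), ← mul_assoc, ← mul_pow]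
          norm_num
        rw [e4]
        have : 0 < ((1 : ℝ) / 2) ^ (i + 1) := by positivity
        linarith
      have e5 : 0 < (1 + thet (j + i) j) / (1 - thet (j + i) j) :=
        div_pos (by linarith) (by linarith)
      refine (Real.log_le_log e5 e2).trans ?_
      rw [Real.log_pow]
      push_cast
      have := log_two_le_one
      have : ((i : ℝ) + 2) * Real.log 2 ≤ (i + 2) * 1 := by gcongr
      linarith
    have hmu2 : -Real.log (thet (j + i) j) ≤ 2 * δ := by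
      rw [ht]
      have e2 := Real.one_sub_inv_le_log_of_pos (show 0 < 1 - δ by linarith)
      have e3 : (1 - δ)⁻¹ ≤ 1 + 2 * δ := by
        rw [inv_le_iff_one_le_mul₀ (by linarith)]
        nlinarith
      linarith
    have hcost : cost (j + i) j = 2 ^ j * ((i : ℝ) + 4) := by
      rw [cost, if_pos h]; push_cast; ring
    rw [hcost]
    have hδ2 : 2 * δ * (2 * 2 ^ (j + i)) = 2 ^ j * 2 := by
      rw [hδ, pow_add, pow_succ]
      have : ((1 : ℝ) / 2) ^ i * 2 ^ i = 1 := by rw [← mul_pow]; norm_num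
      linear_combination (2 ^ j * 2) * this
    have hmB : -Real.log (thet (j + i) j) * B ≤ 2 * δ * (2 * 2 ^ (j + i)) := by
      calc -Real.log (thet (j + i) j) * B ≤ -Real.log (thet (j + i) j) * (2 * 2 ^ (j + i)) := by
            gcongr
        _ ≤ 2 * δ * (2 * 2 ^ (j + i)) := by gcongr
    have : (2 : ℝ) ^ j * Real.log ((1 + thet (j + i) j) / (1 - thet (j + i) j)) ≤
        2 ^ j * (i + 2) := by gcongr
    rw [hδ2] at hmB
    linarith
  · obtain ⟨i, rfl⟩ := Nat.exists_eq_add_of_lt (not_le.mp h)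
    have e1 : J + i + 1 - J = i + 1 := by omega
    have ht : thet J (J + i + 1) = (1 / 4) ^ (i + 1) / 2 := by rw [thet, if_neg h, e1]
    set θ : ℝ := (1 / 4) ^ (i + 1) / 2 with hθ
    have hθ0 : 0 < θ := by positivity
    have hθ1 : θ ≤ 1 / 8 := by
      have : ((1 : ℝ) / 4) ^ (i + 1) ≤ (1 / 4) ^ 1 :=
        pow_le_pow_of_le_one (by norm_num) (by norm_num) (by omega)
      rw [hθ]; linarith
    have hlam : Real.log ((1 + θ) / (1 - θ)) ≤ 3 * θ := by
      have e5 : 0 < (1 + θ) / (1 - θ) := div_pos (by linarith) (by linarith)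
      refine (Real.log_le_sub_one_of_pos e5).trans ?_
      rw [sub_le_iff_le_add, div_le_iff₀ (by linarith)]
      nlinarith
    have hmu2 : -Real.log θ ≤ 2 * i + 3 := by
      have e2 : θ = ((2 : ℝ) ^ (2 * i + 3))⁻¹ := by
        have e3 : (2 : ℝ) ^ (2 * i + 3) = 4 ^ i * 8 := by
          rw [pow_add, pow_mul]; norm_num
        rw [hθ, e3, pow_succ, one_div, inv_pow, mul_inv]
        ring
      rw [e2, Real.log_inv, neg_neg, Real.log_pow]
      push_cast
      have := log_two_le_one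
      have : (2 * (i : ℝ) + 3) * Real.log 2 ≤ (2 * i + 3) * 1 := by gcongr
      linarith
    have hcost : cost J (J + i + 1) = 2 ^ J * ((1 / 2) ^ (i + 1) * (8 * ((i : ℝ) + 1) + 6)) := by
      rw [cost, if_neg h, e1]; push_cast; ring
    rw [hcost, ht]
    rw [ht] at hmu
    have hmB : -Real.log θ * B ≤ (2 * i + 3) * (4 * (2 ^ J) ^ 2 / 2 ^ (J + i + 1)) := by
      calc -Real.log θ * B ≤ -Real.log θ * (4 * (2 ^ J) ^ 2 / 2 ^ (J + i + 1)) := by gcongr
        _ ≤ (2 * i + 3) * (4 * (2 ^ J) ^ 2 / 2 ^ (J + i + 1)) := by gcongr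
    have e6 : (4 : ℝ) * (2 ^ J) ^ 2 / 2 ^ (J + i + 1) = 2 ^ J * ((1 / 2) ^ (i + 1) * 4) := by
      rw [one_div, inv_pow, show J + i + 1 = J + (i + 1) by ring, pow_add]
      field_simp
    have e7 : (2 : ℝ) ^ (J + i + 1) * (3 * θ) = 2 ^ J * ((1 / 2) ^ (i + 1) * (3 / 2)) := by
      rw [hθ, show J + i + 1 = J + (i + 1) by ring, pow_add]
      have : (2 : ℝ) ^ (i + 1) * (1 / 4) ^ (i + 1) = (1 / 2) ^ (i + 1) := by
        rw [← mul_pow]; norm_num
      linear_combination (2 ^ J * (3 / 2)) * this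
    have hlam2 : (2 : ℝ) ^ (J + i + 1) * Real.log ((1 + θ) / (1 - θ)) ≤
        2 ^ (J + i + 1) * (3 * θ) := by gcongr
    rw [e6] at hmB
    rw [e7] at hlam2
    have e8 : (0 : ℝ) ≤ 2 ^ J * ((1 / 2) ^ (i + 1)) := by positivity
    nlinarith

lemma sum_cost (J N : ℕ) : ∑ j ∈ range N, cost J j ≤ 32 * 2 ^ J := by
  have h1 : ∑ j ∈ range (J + 1), cost J j ≤ 10 * 2 ^ J := by
    have h2 : ∀ m, m ≤ J → ∑ j ∈ range (m + 1), cost J j =
        2 ^ (m + 1) * ((J : ℝ) - m + 5) - (J + 6) := by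
      intro m
      induction m with
      | zero =>
        intro _
        rw [zero_add, sum_range_one, cost, if_pos (Nat.zero_le _)]
        push_cast; ring
      | succ m ih =>
        intro hm
        rw [sum_range_succ, ih (by omega), cost, if_pos hm]
        push_cast
        rw [pow_succ (2 : ℝ) (m + 1)]
        ring
    rw [h2 J le_rfl, pow_succ]
    have : (0 : ℝ) ≤ J := by positivity
    linarith
  have h3 : ∀ i : ℕ, ∑ j ∈ range (J + 1 + i), cost J j ≤
      10 * 2 ^ J + 2 ^ J * (22 - (1 / 2) ^ i * (8 * i + 22)) := by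
    intro i
    induction i with
    | zero => simpa using h1
    | succ i ih =>
      rw [← add_assoc, sum_range_succ]
      have h4 : cost J (J + 1 + i) = 2 ^ J * ((1 / 2) ^ (i + 1) * (8 * ((i : ℝ) + 1) + 6)) := by
        rw [cost, if_neg (by omega), show J + 1 + i - J = i + 1 by omega]; push_cast; ring
      rw [h4, pow_succ]
      push_cast
      have : (0 : ℝ) ≤ 2 ^ J * (1 / 2) ^ i := by positivity
      nlinarith
  have h5 : ∑ j ∈ range N, cost J j ≤ ∑ j ∈ range (J + 1 + N), cost J j := by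
    apply sum_le_sum_of_subset_of_nonneg
    · intro x; simp only [mem_range]; omega
    · intro j _ _; exact cost_nonneg J j
  refine h5.trans ((h3 N).trans ?_)
  have h6 : (0 : ℝ) ≤ 2 ^ J * ((1 / 2) ^ N * (8 * N + 22)) := by positivity
  nlinarith

/-- natural numbers in the block `j` -/
noncomputable def blk (n j : ℕ) : Finset ℕ := (Ioc 0 n).filter fun k => Nat.log 2 k = j

lemma mem_blk {n j k : ℕ} : k ∈ blk n j ↔ (0 < k ∧ k ≤ n) ∧ Nat.log 2 k = j := by
  rw [blk, mem_filter, mem_Ioc]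

lemma blk_bounds {n j k : ℕ} (h : k ∈ blk n j) : 2 ^ j ≤ k ∧ k < 2 * 2 ^ j ∧ k ≤ n := by
  rw [mem_blk] at h
  obtain ⟨⟨h1, h2⟩, h3⟩ := h
  have h4 := Nat.pow_log_le_self 2 (x := k) (by omega)
  have h5 := Nat.lt_pow_succ_log_self (b := 2) (by norm_num) k
  rw [h3] at h4 h5
  rw [pow_succ] at h5
  exact ⟨h4, by omega, h2⟩

lemma card_blk (n j : ℕ) : #(blk n j) ≤ 2 ^ j := by
  have : blk n j ⊆ Ico (2 ^ j) (2 * 2 ^ j) := by
    intro k hk
    have := blk_bounds hk
    rw [mem_Ico]; omega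
  refine (card_le_card this).trans ?_
  rw [Nat.card_Ico]; omega

/-- Bound for the size of a family from the deviations in blocks. -/
theorem par_count {ι : Type*} {F : Finset ι} {a : ι → ℕ → ℤ} {n : ℕ}
    (inj : ∀ f ∈ F, ∀ g ∈ F, (∀ k, 1 ≤ k → k ≤ n → a f k = a g k) → f = g)
    {X : ℝ} (hX : 1 ≤ X)
    (hb : ∀ j, ∑ k ∈ blk n j, ∑ f ∈ F, ‖(a f k : ℂ) - av F a k (fun g => (a g k : ℂ)) f‖ ^ 2 ≤
      #F * X ^ 2 / 2 ^ j) :
    (#F : ℝ) ≤ Real.exp (64 * X) := by
  classical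
  obtain ⟨i, hi1, hi2⟩ := exists_nat_pow_near hX (show (1 : ℝ) < 2 by norm_num)
  set J := i + 1 with hJ
  have hJ2 : (2 : ℝ) ^ J ≤ 2 * X := by rw [hJ, pow_succ]; linarith
  have hX0 : 0 < X := by linarith
  set m : ι → ℕ → ℤ := fun f k => round (av F a k (fun g => (a g k : ℂ)) f).re with hm
  set dd : ι → ℕ → ℝ := fun f k => ‖(a f k : ℂ) - av F a k (fun g => (a g k : ℂ)) f‖ with hdd
  set ee : ι → ℕ → ℝ := fun f k => |((a f k - m f k : ℤ) : ℝ)| with hee
  have hdd0 : ∀ f k, 0 ≤ dd f k := fun f k => norm_nonneg _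
  have hee0 : ∀ f k, 0 ≤ ee f k := fun f k => abs_nonneg _
  have he1 : ∀ f k, ee f k ≤ 2 * dd f k := by
    intro f k
    simp only [hee, hdd, hm]
    set x : ℂ := av F a k (fun g => (a g k : ℂ)) f with hx
    have h1 : |(a f k : ℝ) - x.re| ≤ ‖(a f k : ℂ) - x‖ := by
      have := Complex.abs_re_le_norm ((a f k : ℂ) - x)
      rwa [Complex.sub_re, Complex.intCast_re] at this
    have h2 : |x.re - round x.re| ≤ |x.re - (a f k : ℝ)| := round_le x.re (a f k)
    rw [abs_sub_comm x.re (a f k : ℝ)] at h2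
    have h3 : ((a f k - round x.re : ℤ) : ℝ) = ((a f k : ℝ) - x.re) + (x.re - round x.re) := by
      push_cast; ring
    rw [h3]
    have := abs_add_le ((a f k : ℝ) - x.re) (x.re - round x.re)
    linarith
  have he2 : ∀ f k, ee f k ≤ 4 * dd f k ^ 2 := by
    intro f k
    have h1 := he1 f k
    have h2 : ee f k ≤ ee f k ^ 2 := by
      simp only [hee]
      rcases eq_or_ne (a f k - m f k) 0 with h0 | h0
      · rw [h0]; simp
      · have : (1 : ℝ) ≤ |((a f k - m f k : ℤ) : ℝ)| := by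
          exact_mod_cast Int.one_le_abs h0
        nlinarith
    have h3 := hee0 f k
    calc ee f k ≤ ee f k ^ 2 := h2
      _ ≤ (2 * dd f k) ^ 2 := by gcongr
      _ = _ := by ring
  have hsum1 : ∀ j, ∑ k ∈ blk n j, ∑ f ∈ F, ee f k ≤ #F * (2 * 2 ^ J) := by
    intro j
    have h1 : (∑ k ∈ blk n j, ∑ f ∈ F, dd f k) ^ 2 ≤ (#F * X) ^ 2 := by
      rw [← sum_product' (blk n j) F fun k f => dd f k]
      refine (sq_sum_le_card_mul_sum_sq).trans ?_
      rw [sum_product (blk n j) F fun p => dd p.2 p.1 ^ 2, card_product]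
      push_cast
      have h2 := hb j
      have h3 : (#(blk n j) : ℝ) ≤ 2 ^ j := by exact_mod_cast card_blk n j
      have h4 : 0 ≤ ∑ k ∈ blk n j, ∑ f ∈ F, dd f k ^ 2 :=
        sum_nonneg fun _ _ => sum_nonneg fun _ _ => sq_nonneg _
      calc (#(blk n j) : ℝ) * #F * ∑ k ∈ blk n j, ∑ f ∈ F, dd f k ^ 2
          ≤ 2 ^ j * #F * (#F * X ^ 2 / 2 ^ j) := by gcongr
        _ = (#F * X) ^ 2 := by field_simp
    have h2 : ∑ k ∈ blk n j, ∑ f ∈ F, dd f k ≤ #F * X :=
      le_of_sq_le_sq h1 (by positivity)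
    calc ∑ k ∈ blk n j, ∑ f ∈ F, ee f k ≤ ∑ k ∈ blk n j, ∑ f ∈ F, 2 * dd f k :=
          sum_le_sum fun k _ => sum_le_sum fun f _ => he1 f k
      _ = 2 * ∑ k ∈ blk n j, ∑ f ∈ F, dd f k := by
          rw [mul_sum]
          exact sum_congr rfl fun k _ => (mul_sum _ _ _).symm
      _ ≤ 2 * (#F * X) := by gcongr
      _ ≤ 2 * (#F * 2 ^ J) := by gcongr
      _ = _ := by ring
  have hsum2 : ∀ j, ∑ k ∈ blk n j, ∑ f ∈ F, ee f k ≤ #F * (4 * (2 ^ J) ^ 2 / 2 ^ j) := by
    intro j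
    calc ∑ k ∈ blk n j, ∑ f ∈ F, ee f k ≤ ∑ k ∈ blk n j, ∑ f ∈ F, 4 * dd f k ^ 2 :=
          sum_le_sum fun k _ => sum_le_sum fun f _ => he2 f k
      _ = 4 * ∑ k ∈ blk n j, ∑ f ∈ F, dd f k ^ 2 := by
          rw [mul_sum]
          exact sum_congr rfl fun k _ => (mul_sum _ _ _).symm
      _ ≤ 4 * (#F * X ^ 2 / 2 ^ j) := by gcongr; exact hb j
      _ ≤ 4 * (#F * (2 ^ J) ^ 2 / 2 ^ j) := by gcongr
      _ = _ := by ring
  rcases F.eq_empty_or_nonempty with he | hne
  · rw [he]; simp [Real.exp_nonneg]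
  have hF0 : (0 : ℝ) < #F := by exact_mod_cast card_pos.mpr hne
  refine (leaves (F := F) (a := a) (m := m) (n := n)
    (lam := fun k => Real.log ((1 + thet J (Nat.log 2 k)) / (1 - thet J (Nat.log 2 k))))
    (mu := fun k => -Real.log (thet J (Nat.log 2 k))) inj ?_ ?_ (s := 32 * 2 ^ J) ?_).trans ?_
  · intro f hf k _ _ g hg
    simp only [hm]
    rw [av_congr _ hg]
  · intro k _ _ S
    exact geo_exp (thet_pos J _) (thet_lt J _) S
  · rw [sum_comm]
    have hmaps : ∀ k ∈ Ioc 0 n, Nat.log 2 k ∈ range (n + 1) := by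
      intro k hk
      rw [mem_Ioc] at hk
      rw [mem_range]
      have := Nat.log_le_self 2 k
      omega
    rw [← sum_fiberwise_of_maps_to hmaps]
    have h1 : ∀ j ∈ range (n + 1), ∑ k ∈ (Ioc 0 n).filter (fun k => Nat.log 2 k = j),
        ∑ f ∈ F, (Real.log ((1 + thet J (Nat.log 2 k)) / (1 - thet J (Nat.log 2 k))) +
          -Real.log (thet J (Nat.log 2 k)) * |((a f k - m f k : ℤ) : ℝ)|) ≤ #F * cost J j := by
      intro j _
      have h2 : ∀ k ∈ (Ioc 0 n).filter (fun k => Nat.log 2 k = j),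
          ∑ f ∈ F, (Real.log ((1 + thet J (Nat.log 2 k)) / (1 - thet J (Nat.log 2 k))) +
          -Real.log (thet J (Nat.log 2 k)) * |((a f k - m f k : ℤ) : ℝ)|) =
          #F * Real.log ((1 + thet J j) / (1 - thet J j)) +
          -Real.log (thet J j) * ∑ f ∈ F, ee f k := by
        intro k hk
        rw [(mem_filter.mp hk).2, sum_add_distrib, sum_const, nsmul_eq_mul, mul_sum]
      rw [sum_congr rfl h2, sum_add_distrib, sum_const, nsmul_eq_mul, ← mul_sum]
      have h3 : (#(blk n j) : ℝ) ≤ 2 ^ j := by exact_mod_cast card_blk n j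
      have h4 : 0 ≤ Real.log ((1 + thet J j) / (1 - thet J j)) := by
        apply Real.log_nonneg
        have e0 := thet_pos J j
        have e1 := thet_lt J j
        rw [le_div_iff₀ (by linarith)]
        linarith
      have h5 : ∑ k ∈ blk n j, ∑ f ∈ F, ee f k = #F * ((∑ k ∈ blk n j, ∑ f ∈ F, ee f k) / #F) := by
        field_simp
      have h6 := block_cost J j (B := (∑ k ∈ blk n j, ∑ f ∈ F, ee f k) / #F)
        (by rw [div_le_iff₀ hF0, mul_comm]; exact hsum1 j)
        (by rw [div_le_iff₀ hF0, mul_comm]; exact hsum2 j)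
      change (#(blk n j) : ℝ) * _ + -Real.log (thet J j) * ∑ k ∈ blk n j, ∑ f ∈ F, ee f k ≤ _
      rw [h5]
      clear h5
      revert h6 h4
      generalize Real.log ((1 + thet J j) / (1 - thet J j)) = lam
      generalize -Real.log (thet J j) = mu
      generalize (∑ k ∈ blk n j, ∑ f ∈ F, ee f k) / #F = S
      intro h4 h6
      have h7 : (#(blk n j) : ℝ) * (#F * lam) ≤ 2 ^ j * (#F * lam) :=
        mul_le_mul_of_nonneg_right h3 (mul_nonneg hF0.le h4)
      have h8 := mul_le_mul_of_nonneg_left h6 hF0.le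
      linarith
    refine (sum_le_sum h1).trans ?_
    rw [← mul_sum]
    have := sum_cost J (n + 1)
    gcongr
  · apply Real.exp_le_exp.mpr
    linarith

end Pool.Agent.Helper79.LC
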