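import Pool.Agent.Helper79.LG.Sep
import Pool.Agent.Helper79.LE.All

/-!
Counting all integer polynomials: `f = f₁ h ^ 2` with `f₁` separable.
-/

open Finset

namespace Pool.Agent.Helper79.LC

lemma Sq_C_mul {z : ℤ} (hz : z ≠ 0) {g : Polynomial ℤ} (hg : Sq g) : Sq (Polynomial.C z * g) := by
  rw [Sq, Polynomial.map_mul, Polynomial.map_C]
  apply Polynomial.Separable.unit_mul _ hg
  rw [Polynomial.isUnit_C]
  simpa using hz

/-- The decomposition `f = f₁ h ^ 2`. -/
theorem sq_decomp (f : Polynomial ℤ) (hf : f ≠ 0) :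
    ∃ g h : Polynomial ℤ, f = g * h ^ 2 ∧ Sq g ∧ h ≠ 0 := by
  classical
  obtain ⟨z, hz⟩ := fac_prod f hf
  have hz0 : z ≠ 0 := by
    intro h
    apply hf
    rw [hz, h]; simp
  set P : Finset (Polynomial ℤ) := (fac f).toFinset with hP
  have hPm : ∀ p ∈ P, p ∈ fac f := fun p hp => Multiset.mem_toFinset.mp hp
  set O : Finset (Polynomial ℤ) := P.filter fun p => (fac f).count p % 2 = 1 with hO
  refine ⟨Polynomial.C z * ∏ p ∈ O, p, ∏ p ∈ P, p ^ ((fac f).count p / 2), ?_, ?_, ?_⟩
  · have h1 : (fac f).prod = (∏ p ∈ O, p) * (∏ p ∈ P, p ^ ((fac f).count p / 2)) ^ 2 := by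
      rw [Finset.prod_multiset_count, hO, prod_filter, ← prod_pow, ← prod_mul_distrib]
      refine prod_congr rfl fun p _ => ?_
      rw [← pow_mul]
      rcases Nat.mod_two_eq_zero_or_one ((fac f).count p) with h | h
      · rw [if_neg (by omega), one_mul]
        congr 1; omega
      · rw [if_pos h, ← pow_succ']
        congr 1; omega
    conv_lhs => rw [hz, h1]
    ring
  · exact Sq_C_mul hz0 (Sq_prod fun p hp => hPm p (mem_filter.mp hp).1)
  · rw [prod_ne_zero_iff]
    intro p hp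
    exact pow_ne_zero _ (mem_fac (hPm p hp)).1.ne_zero

/-- The recursive inequality. -/
theorem rec_count (n : ℕ) {T : ℝ} (hT : 1 ≤ T) :
    ((famZ n T).ncard : ℝ) ≤
      (∑ d ∈ range (n + 1), ((famQ d T).ncard : ℝ)) * (famZ (n / 2) T).ncard := by
  classical
  have hT0 : 0 ≤ T := by linarith
  set F : Finset (Polynomial ℤ) := (finite_famZ n hT0).toFinset with hF
  set F' : Finset (Polynomial ℤ) := (finite_famZ (n / 2) hT0).toFinset with hF'
  set S : ℕ → Finset (Polynomial ℤ) := fun d => (finite_famQ d hT0).toFinset with hS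
  have hc : (famZ n T).ncard = #F := Set.ncard_eq_toFinset_card _ (finite_famZ n hT0)
  have hc' : (famZ (n / 2) T).ncard = #F' := Set.ncard_eq_toFinset_card _ (finite_famZ (n / 2) hT0)
  have hcS : ∀ d, (famQ d T).ncard = #(S d) := fun d =>
    Set.ncard_eq_toFinset_card _ (finite_famQ d hT0)
  have hdec : ∀ f : Polynomial ℤ, ∃ g h : Polynomial ℤ, f ≠ 0 → (f = g * h ^ 2 ∧ Sq g ∧ h ≠ 0) := by
    intro f
    by_cases hf : f = 0
    · exact ⟨0, 0, fun h => absurd hf h⟩
    · obtain ⟨g, h, hh⟩ := sq_decomp f hf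
      exact ⟨g, h, fun _ => hh⟩
  choose G H hGH using hdec
  have h1 : #F ≤ #(((range (n + 1)).biUnion S) ×ˢ F') := by
    apply card_le_card_of_injOn (fun f => (G f, H f))
    · intro f hf
      rw [hF, Set.Finite.coe_toFinset] at hf
      obtain ⟨f1, f2, f3⟩ := hf
      obtain ⟨e1, e2, e3⟩ := hGH f f1
      have hdeg : f.natDegree = (G f).natDegree + 2 * (H f).natDegree := by
        conv_lhs => rw [e1]
        rw [Polynomial.natDegree_mul e2.ne_zero (pow_ne_zero 2 e3), Polynomial.natDegree_pow]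
      have hM1 : MM (G f) ≤ MM f := MM_dvd f1 (Dvd.intro _ e1.symm)
      have hM2 : MM (H f) ≤ MM f := by
        apply MM_dvd f1
        refine ⟨G f * H f, ?_⟩
        conv_lhs => rw [e1]
        ring
      rw [mem_coe, mem_product, mem_biUnion]
      refine ⟨⟨(G f).natDegree, ?_, ?_⟩, ?_⟩
      · rw [mem_range]; omega
      · rw [hS, Set.Finite.mem_toFinset]
        exact ⟨e2, rfl, hM1.trans f3⟩
      · rw [hF', Set.Finite.mem_toFinset]
        refine ⟨e3, ?_, hM2.trans f3⟩
        change (H f).natDegree ≤ n / 2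
        omega
    · intro f hf g hg hfg
      rw [hF, Set.Finite.coe_toFinset] at hf hg
      have e1 := (hGH f hf.1).1
      have e2 := (hGH g hg.1).1
      have h2 : G f = G g := congrArg Prod.fst hfg
      have h3 : H f = H g := congrArg Prod.snd hfg
      rw [e1, e2, h2, h3]
  rw [hc, hc']
  have h2 : #F ≤ (∑ d ∈ range (n + 1), #(S d)) * #F' := by
    refine h1.trans ?_
    rw [card_product]
    exact Nat.mul_le_mul_right _ card_biUnion_le
  calc (#F : ℝ) ≤ (((∑ d ∈ range (n + 1), #(S d)) * #F' : ℕ) : ℝ) := by exact_mod_cast h2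
    _ = _ := by
        push_cast
        congr 1
        exact sum_congr rfl fun d _ => by rw [hcS d]

/-- the exponent -/
noncomputable def ph (n : ℕ) : ℝ := √(((n : ℝ) + 1) * Real.log (n + 2))

lemma ph_mono {d n : ℕ} (h : d ≤ n) : ph d ≤ ph n := by
  have h1 : (d : ℝ) ≤ n := by exact_mod_cast h
  have h0 : (0 : ℝ) ≤ d := by positivity
  have h2 : Real.log ((d : ℝ) + 2) ≤ Real.log (n + 2) := Real.log_le_log (by linarith) (by linarith)
  have h3 : 0 ≤ Real.log ((d : ℝ) + 2) := Real.log_nonneg (by linarith)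
  exact Real.sqrt_le_sqrt (by gcongr)

lemma ph_half {n : ℕ} (hn : 1 ≤ n) : ph (n / 2) ≤ 7 / 8 * ph n := by
  have hn1 : (1 : ℝ) ≤ n := by exact_mod_cast hn
  have h1 : ((n / 2 : ℕ) : ℝ) ≤ n / 2 := Nat.cast_div_le
  have h0 : (0 : ℝ) ≤ ((n / 2 : ℕ) : ℝ) := by positivity
  have h2 : Real.log (((n / 2 : ℕ) : ℝ) + 2) ≤ Real.log (n + 2) :=
    Real.log_le_log (by linarith) (by linarith)
  have h3 : 0 ≤ Real.log (((n / 2 : ℕ) : ℝ) + 2) := Real.log_nonneg (by linarith)
  rw [ph, Real.sqrt_le_iff]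
  refine ⟨by rw [ph]; positivity, ?_⟩
  rw [ph, mul_pow, Real.sq_sqrt (mul_nonneg (by linarith) (by linarith))]
  calc (((n / 2 : ℕ) : ℝ) + 1) * Real.log (((n / 2 : ℕ) : ℝ) + 2) ≤
      (n / 2 + 1) * Real.log (n + 2) := by gcongr
    _ ≤ (49 / 64 * ((n : ℝ) + 1)) * Real.log (n + 2) := by
        gcongr
        · linarith
        · linarith
    _ = _ := by ring

lemma log_le_ph (n : ℕ) : Real.log ((n : ℝ) + 1) ≤ ph n := by
  have h0 : (0 : ℝ) ≤ n := by positivity
  have h1 : 0 ≤ Real.log ((n : ℝ) + 1) := Real.log_nonneg (by linarith)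
  have h2 : Real.log ((n : ℝ) + 1) ≤ n + 1 := by
    have := Real.log_le_sub_one_of_pos (show (0 : ℝ) < n + 1 by linarith)
    linarith
  have h3 : Real.log ((n : ℝ) + 1) ≤ Real.log (n + 2) := Real.log_le_log (by linarith) (by linarith)
  apply Real.le_sqrt_of_sq_le
  rw [pow_two]
  gcongr

theorem famZ_count : ∃ C : ℝ, 0 < C ∧ ∀ (n : ℕ) (T : ℝ), 1 ≤ T →
    ((famZ n T).ncard : ℝ) ≤ Real.exp (C * (T ^ 2 * ph n)) := by
  obtain ⟨C, hC, h⟩ := sep_count
  refine ⟨8 * (C + 1), by positivity, ?_⟩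
  intro n T hT
  have hT0 : 0 ≤ T := by linarith
  have hT2 : 1 ≤ T ^ 2 := one_le_pow₀ hT
  induction n using Nat.strong_induction_on with
  | _ n ih =>
    have hph0 : 0 ≤ ph n := Real.sqrt_nonneg _
    rcases Nat.eq_zero_or_pos n with hn | hn
    · have h1 : famZ n T ⊆ famQ n T := by
        rintro f ⟨h1, h2, h3⟩
        rw [hn] at h2
        have h4 : f = Polynomial.C (f.coeff 0) * 1 := by
          rw [mul_one]; exact Polynomial.eq_C_of_natDegree_le_zero h2
        refine ⟨?_, by omega, h3⟩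
        rw [h4]
        apply Sq_C_mul
        · intro h5
          apply h1
          rw [h4, h5]; simp
        · rw [Sq, Polynomial.map_one]; exact Polynomial.separable_one
      have h2 : ((famZ n T).ncard : ℝ) ≤ (famQ n T).ncard := by
        exact_mod_cast Set.ncard_le_ncard h1 (finite_famQ n hT0)
      refine h2.trans ((h n T hT).trans (Real.exp_le_exp.mpr ?_))
      change C * (T ^ 2 * ph n) ≤ _
      have : 0 ≤ T ^ 2 * ph n := by positivity
      nlinarith
    · have h1 := rec_count n hT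
      have h2 := ih (n / 2) (by omega)
      have h3 : ∑ d ∈ range (n + 1), ((famQ d T).ncard : ℝ) ≤
          Real.exp ((C + 1) * (T ^ 2 * ph n)) := by
        calc ∑ d ∈ range (n + 1), ((famQ d T).ncard : ℝ)
            ≤ ∑ d ∈ range (n + 1), Real.exp (C * (T ^ 2 * ph n)) := by
              refine sum_le_sum fun d hd => (h d T hT).trans (Real.exp_le_exp.mpr ?_)
              have h4 : ph d ≤ ph n := ph_mono (by rw [mem_range] at hd; omega)
              change C * (T ^ 2 * ph d) ≤ _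
              gcongr
          _ = (n + 1) * Real.exp (C * (T ^ 2 * ph n)) := by
              rw [sum_const, card_range, nsmul_eq_mul]; push_cast; ring
          _ = Real.exp (Real.log (n + 1)) * Real.exp (C * (T ^ 2 * ph n)) := by
              rw [Real.exp_log (by positivity)]
          _ = Real.exp (Real.log (n + 1) + C * (T ^ 2 * ph n)) := by rw [← Real.exp_add]
          _ ≤ _ := by
              apply Real.exp_le_exp.mpr
              have h4 := log_le_ph n
              have h5 : ph n ≤ T ^ 2 * ph n := le_mul_of_one_le_left hph0 hT2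
              linarith
      refine h1.trans ?_
      have h4 : 0 ≤ ∑ d ∈ range (n + 1), ((famQ d T).ncard : ℝ) :=
        sum_nonneg fun _ _ => by positivity
      calc (∑ d ∈ range (n + 1), ((famQ d T).ncard : ℝ)) * (famZ (n / 2) T).ncard
          ≤ Real.exp ((C + 1) * (T ^ 2 * ph n)) *
            Real.exp (8 * (C + 1) * (T ^ 2 * ph (n / 2))) := by gcongr
        _ = Real.exp ((C + 1) * (T ^ 2 * ph n) + 8 * (C + 1) * (T ^ 2 * ph (n / 2))) := by
            rw [← Real.exp_add]
        _ ≤ _ := by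
            apply Real.exp_le_exp.mpr
            have h5 := ph_half hn
            have h6 : 8 * (C + 1) * (T ^ 2 * ph (n / 2)) ≤
                8 * (C + 1) * (T ^ 2 * (7 / 8 * ph n)) := by gcongr
            linarith

theorem count_sqrt : ∃ C : ℝ, 0 < C ∧ ∀ (n : ℕ) (T : ℝ), 2 ≤ n → 1 ≤ T →
    ((famT n T).ncard : ℝ) ≤ Real.exp (C * T ^ 2 * √(n * Real.log n)) := by
  obtain ⟨C, hC, h⟩ := famZ_count
  refine ⟨2 * (C + 1), by positivity, ?_⟩
  intro n T hn hT
  have hn2 : (2 : ℝ) ≤ n := by exact_mod_cast hn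
  have hn0 : (0 : ℝ) < n := by linarith
  have hT2 : 1 ≤ T ^ 2 := one_le_pow₀ hT
  have hlog : 0 ≤ Real.log n := Real.log_nonneg (by linarith)
  have h1 : ((famT n T).ncard : ℝ) ≤ (famZ n T).ncard + 1 := by
    exact_mod_cast famT_le n (by linarith)
  have h2 := h n T hT
  have h3 : ph n ≤ 2 * √(n * Real.log n) := by
    rw [ph, Real.sqrt_le_iff]
    refine ⟨by positivity, ?_⟩
    rw [mul_pow, Real.sq_sqrt (by positivity)]
    have h4 : Real.log (n + 2) ≤ 2 * Real.log n := by
      have : Real.log (n + 2) ≤ Real.log (n ^ 2) := Real.log_le_log (by linarith) (by nlinarith)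
      rwa [Real.log_pow] at this
    have h5 : 0 ≤ Real.log ((n : ℝ) + 2) := Real.log_nonneg (by linarith)
    calc ((n : ℝ) + 1) * Real.log (n + 2) ≤ (2 * n) * (2 * Real.log n) := by
          gcongr; linarith
      _ = _ := by ring
  have hph1 : 1 ≤ ph n := by
    have h4 := log_add_two hn
    rw [ph, Real.one_le_sqrt]
    nlinarith
  have h4 : (2 : ℝ) ≤ Real.exp (T ^ 2 * ph n) := by
    have := Real.add_one_le_exp (T ^ 2 * ph n)
    nlinarith
  have h5 : 1 ≤ Real.exp (C * (T ^ 2 * ph n)) := Real.one_le_exp (by positivity)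
  calc ((famT n T).ncard : ℝ) ≤ (famZ n T).ncard + 1 := h1
    _ ≤ Real.exp (C * (T ^ 2 * ph n)) + Real.exp (C * (T ^ 2 * ph n)) := by gcongr
    _ = 2 * Real.exp (C * (T ^ 2 * ph n)) := by ring
    _ ≤ Real.exp (T ^ 2 * ph n) * Real.exp (C * (T ^ 2 * ph n)) := by gcongr
    _ = Real.exp ((C + 1) * (T ^ 2 * ph n)) := by rw [← Real.exp_add]; ring_nf
    _ ≤ _ := by
        apply Real.exp_le_exp.mpr
        calc (C + 1) * (T ^ 2 * ph n) ≤ (C + 1) * (T ^ 2 * (2 * √(n * Real.log n))) := by gcongr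
          _ = _ := by ring

end Pool.Agent.Helper79.LC
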