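import Pool.Agent.Helper79.LG.Dev
import Pool.Agent.Helper79.LG.Par
import Pool.Agent.Helper79.LE.Bnd

/-!
Counting separable integer polynomials.
-/

open Finset

namespace Pool.Agent.Helper79.LC

lemma sc_one (m : Multiset ℂ) : sc 1 m = m := by simp [sc]

lemma log_add_two {n : ℕ} (hn : 2 ≤ n) : 1 ≤ Real.log ((n : ℝ) + 2) := by
  have h1 : (4 : ℝ) ≤ (n : ℝ) + 2 := by
    have : (2 : ℝ) ≤ n := by exact_mod_cast hn
    linarith
  have h2 := Real.log_le_log (by norm_num) h1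
  have h3 : Real.log 4 = 2 * Real.log 2 := by
    rw [show (4 : ℝ) = 2 ^ 2 by norm_num, Real.log_pow]; push_cast; ring
  have := Real.log_two_gt_d9
  linarith

/-- Separable polynomials with a given leading coefficient. -/
theorem sep_lc {n : ℕ} (hn : 2 ≤ n) {T : ℝ} (hT : 1 ≤ T) (hTn : T ≤ n) {ℓ : ℤ} (hℓ : ℓ ≠ 0)
    (F : Finset (Polynomial ℤ))
    (hF : ∀ f ∈ F, Sq f ∧ f.natDegree = n ∧ MM f ≤ T ∧ f.leadingCoeff = ℓ) :
    (#F : ℝ) ≤ Real.exp (64 * (T ^ 2 * √(12 * (14 * (((n : ℝ) + 1) * Real.log (n + 2)))))) := by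
  have hn0 : (0 : ℝ) < n := by positivity
  have hn2 : (2 : ℝ) ≤ n := by exact_mod_cast hn
  have hT0 : 0 < T := by linarith
  have hlog := log_add_two hn
  have hlogT : Real.log T ≤ Real.log (n + 2) := Real.log_le_log hT0 (by linarith)
  have hlogn : Real.log n ≤ Real.log (n + 2) := Real.log_le_log hn0 (by linarith)
  set L : ℝ := Real.log (n + 2) with hL
  set A : ℝ := 14 * (((n : ℝ) + 1) * L) with hA
  have hnA : (n : ℝ) ≤ A := by
    rw [hA]
    have : ((n : ℝ) + 1) * 1 ≤ (n + 1) * L := by gcongr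
    linarith
  have hA0 : 0 ≤ A := by linarith
  have hlc : (0 : ℝ) < |(ℓ : ℝ)| := by
    have : (ℓ : ℝ) ≠ 0 := by exact_mod_cast hℓ
    positivity
  have hlc1 : (1 : ℝ) ≤ |(ℓ : ℝ)| := by exact_mod_cast Int.one_le_abs hℓ
  have hgt : ∀ l : Multiset ℂ, ∀ a ∈ out l, 1 < ‖a‖ := fun l a ha => (Multiset.mem_filter.mp ha).2
  have hmm0 : ∀ l : Multiset ℂ, 0 ≤ mm (out l) := fun l => zero_le_one.trans (mm_pos _ (hgt l))
  set T₁ : ℝ := T / |(ℓ : ℝ)| with hT₁
  have hT₁0 : 0 ≤ T₁ := by positivity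
  have hmm : ∀ f ∈ F, mm (out (rt f).val) ≤ T₁ := by
    intro f hf
    obtain ⟨h1, h2, h3, h4⟩ := hF f hf
    rw [hT₁, le_div_iff₀ hlc, mul_comm]
    have h5 := h1.MM_eq
    rw [← mm_out_val, lc, h4] at h5
    rw [← h5]; exact h3
  have hq : ∀ f ∈ F, ∀ N, N ≤ n → NN N (qs (rt f).val) ≤ T₁ ^ 2 := by
    intro f hf N _
    refine (NN_BQ' N _ (hgt _)).trans ?_
    have h1 := hmm f hf
    have h2 := hmm0 (rt f).val
    gcongr
  have hAA : ∀ f ∈ F, AA (rt f).val n ≤ A := by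
    intro f hf
    obtain ⟨h1, h2, h3, h4⟩ := hF f hf
    have h5 := AA_scq h1 hn h2 (ρ := 0) le_rfl
    rw [zero_div, add_zero, inv_one, sc_one, add_zero] at h5
    refine h5.trans ?_
    have h6 : Real.log (MM f) ≤ L := by
      have hM := one_le_MM' h1.ne_zero
      exact (Real.log_le_log (by linarith) h3).trans hlogT
    have h7 : Real.log n + 4 * Real.log (MM f) + 2 ≤ 7 * L := by linarith
    calc 2 * (n : ℝ) * (Real.log n + 4 * Real.log (MM f) + 2) ≤ 2 * n * (7 * L) := by gcongr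
      _ = 14 * (n * L) := by ring
      _ ≤ A := by rw [hA]; gcongr; linarith
  have hu : ∀ f ∈ F, ∀ N, N ≤ n → NN N (us (rt f).val) ≤ T₁ ^ 2 * (N * A) := by
    intro f hf N hN
    rw [us]
    refine (NN_BQ N _ (hgt _) _).trans ?_
    have h1 := hmm f hf
    have h2 := hmm0 (rt f).val
    have h3 := NN_PW_le (rt f).val N
    have h4 := (AA_mono (rt f).val hN).trans (hAA f hf)
    have h5 := NN_nonneg N (PW ((rt f).val.map refl))
    have h6 : NN N (PW ((rt f).val.map refl)) ≤ N * A := h3.trans (by gcongr)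
    gcongr
  have hco : ∀ f ∈ F, ∀ k, 1 ≤ k → k ≤ n →
      (ℓ : ℂ) * PowerSeries.coeff k (HH (rt f).val) = (ac n f k : ℂ) := by
    intro f hf k _ hk
    obtain ⟨h1, h2, h3, h4⟩ := hF f hf
    have h5 := h1.coeff_HH (k := k) (by omega)
    rw [h4, h2] at h5
    rw [h5, ac]
  have hinj : ∀ f ∈ F, ∀ g ∈ F, (∀ k, 1 ≤ k → k ≤ n → ac n f k = ac n g k) → f = g := by
    intro f hf g hg h
    obtain ⟨h1, h2, h3, h4⟩ := hF f hf
    obtain ⟨g1, g2, g3, g4⟩ := hF g hg
    exact ac_injq (h4.trans g4.symm) h2 g2 h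
  have hX2 : (T ^ 2 * √(12 * A)) ^ 2 = 12 * (T ^ 2) ^ 2 * A := by
    rw [mul_pow, Real.sq_sqrt (by positivity)]; ring
  apply par_count (a := ac n) hinj
  · have h1 : (1 : ℝ) ≤ √(12 * A) := by
      rw [Real.one_le_sqrt]; linarith
    have h2 : (1 : ℝ) ≤ T ^ 2 := one_le_pow₀ hT
    nlinarith
  · intro j
    have hℓC : (ℓ : ℂ) ≠ 0 := by exact_mod_cast hℓ
    have h1 := block_le (F := F) (a := ac n) (M := fun f => (rt f).val) hℓC hco hnA hq hu
      (K := 2 ^ j) Nat.one_le_two_pow (blk n j) (fun k hk => blk_bounds hk)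
    refine h1.trans ?_
    rw [hX2]
    push_cast
    have h2 : ‖(ℓ : ℂ)‖ * T₁ ^ 2 ≤ T ^ 2 := by
      rw [Complex.norm_intCast, hT₁, div_pow]
      have : |(ℓ : ℝ)| * (T ^ 2 / |(ℓ : ℝ)| ^ 2) = T ^ 2 / |(ℓ : ℝ)| := by field_simp
      rw [this]
      exact div_le_self (by positivity) hlc1
    gcongr

/-- Separable polynomials. -/
theorem sep_count : ∃ C : ℝ, 0 < C ∧ ∀ (n : ℕ) (T : ℝ), 1 ≤ T →
    ((famQ n T).ncard : ℝ) ≤ Real.exp (C * (T ^ 2 * √(((n : ℝ) + 1) * Real.log (n + 2)))) := by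
  classical
  refine ⟨1000, by norm_num, fun n T hT => ?_⟩
  have hT0 : 0 < T := by linarith
  have hT2 : T ≤ T ^ 2 := by nlinarith
  have hlogT : 0 ≤ Real.log T := Real.log_nonneg hT
  have hlogT1 : 1 + Real.log T ≤ T := by
    have := Real.log_le_sub_one_of_pos hT0
    linarith
  rcases Nat.lt_or_ge n 2 with hn | hn
  · refine (crude_famQ n hT).trans (Real.exp_le_exp.mpr ?_)
    have hn1 : (n : ℝ) ≤ 1 := by exact_mod_cast (by omega : n ≤ 1)
    have hn0 : (0 : ℝ) ≤ n := by positivity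
    have h1 : (1 / 2 : ℝ) ≤ √(((n : ℝ) + 1) * Real.log (n + 2)) := by
      rw [Real.le_sqrt' (by norm_num)]
      have h2 : Real.log 2 ≤ Real.log (n + 2) := Real.log_le_log (by norm_num) (by linarith)
      have := Real.log_two_gt_d9
      nlinarith
    calc 2 * ((n : ℝ) + 1) ^ 2 * (1 + Real.log T) ≤ 2 * (1 + 1) ^ 2 * T := by gcongr
      _ ≤ 8 * T ^ 2 := by linarith
      _ ≤ 1000 * (T ^ 2 * (1 / 2)) := by nlinarith
      _ ≤ _ := by gcongr
  have hn0 : (0 : ℝ) < n := by positivity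
  have hn2 : (2 : ℝ) ≤ n := by exact_mod_cast hn
  have hlog := log_add_two hn
  set L : ℝ := Real.log (n + 2) with hL
  rcases lt_or_ge (n : ℝ) T with hnT | hTn
  · refine (crude_famQ n hT).trans (Real.exp_le_exp.mpr ?_)
    have h1 : √((n : ℝ) + 1) ≤ √(((n : ℝ) + 1) * L) := by
      apply Real.sqrt_le_sqrt
      nlinarith
    set y : ℝ := √((n : ℝ) + 1) with hy
    set x : ℝ := √T with hx
    have hy2 : y ^ 2 = n + 1 := Real.sq_sqrt (by linarith)
    have hx2 : x ^ 2 = T := Real.sq_sqrt hT0.le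
    have hy0 : 0 < y := Real.sqrt_pos.mpr (by linarith)
    have hx0 : 0 < x := Real.sqrt_pos.mpr hT0
    have hx1 : 1 ≤ x := by rw [hx, Real.one_le_sqrt]; exact hT
    have h2 : 1 + Real.log T ≤ 3 * x := by
      have h3 : Real.log T = 2 * Real.log x := by
        rw [← hx2, Real.log_pow]; push_cast; ring
      have h4 := Real.log_le_sub_one_of_pos hx0
      linarith
    have h5 : y ≤ 2 * x := by
      apply le_of_sq_le_sq _ (by positivity)
      rw [mul_pow, hy2, hx2]; linarith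
    calc 2 * ((n : ℝ) + 1) ^ 2 * (1 + Real.log T) ≤ 2 * ((n : ℝ) + 1) ^ 2 * (3 * x) := by gcongr
      _ = 6 * (y ^ 3 * x * y) := by rw [← hy2]; ring
      _ ≤ 6 * ((2 * x) ^ 3 * x * y) := by gcongr
      _ = 48 * ((x ^ 2) ^ 2 * y) := by ring
      _ = 48 * (T ^ 2 * y) := by rw [hx2]
      _ ≤ 1000 * (T ^ 2 * y) := by
          have : 0 ≤ T ^ 2 * y := by positivity
          linarith
      _ ≤ _ := by gcongr
  · set S : Finset (Polynomial ℤ) := (finite_famQ n hT0.le).toFinset with hS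
    have hScard : (famQ n T).ncard = #S := by
      rw [hS, Set.ncard_eq_toFinset_card _ (finite_famQ n hT0.le)]
    have hSm : ∀ f ∈ S, Sq f ∧ f.natDegree = n ∧ MM f ≤ T := by
      intro f hf
      rw [hS, Set.Finite.mem_toFinset] at hf
      exact hf
    set B : ℝ := Real.exp (64 * (T ^ 2 * √(12 * (14 * (((n : ℝ) + 1) * L))))) with hB
    have hmaps : ∀ f ∈ S, f.leadingCoeff ∈ Icc (-(⌊T⌋₊ : ℤ)) ⌊T⌋₊ := by
      intro f hf
      obtain ⟨h1, h2, h3⟩ := hSm f hf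
      rw [mem_Icc, ← abs_le]
      have h4 : (f.leadingCoeff.natAbs : ℝ) ≤ T := by
        rw [Nat.cast_natAbs]
        push_cast
        exact (lc_le_MM f).trans h3
      have h5 := Nat.le_floor h4
      rw [Int.abs_eq_natAbs]
      exact_mod_cast h5
    have hfib : ∀ ℓ ∈ Icc (-(⌊T⌋₊ : ℤ)) ⌊T⌋₊, (#(S.filter fun f => f.leadingCoeff = ℓ) : ℝ) ≤ B := by
      intro ℓ _
      rcases eq_or_ne ℓ 0 with h0 | h0
      · have : S.filter (fun f => f.leadingCoeff = ℓ) = ∅ := by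
          rw [filter_eq_empty_iff]
          intro f hf h
          rw [h0, Polynomial.leadingCoeff_eq_zero] at h
          exact (hSm f hf).1.ne_zero h
        rw [this, card_empty, Nat.cast_zero]
        exact (Real.exp_pos _).le
      · apply sep_lc hn hT hTn h0
        intro f hf
        obtain ⟨h1, h2⟩ := mem_filter.mp hf
        obtain ⟨h3, h4, h5⟩ := hSm f h1
        exact ⟨h3, h4, h5, h2⟩
    rw [hScard, card_eq_sum_card_fiberwise hmaps]
    push_cast
    refine (sum_le_sum hfib).trans ?_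
    rw [sum_const, nsmul_eq_mul, Int.card_Icc]
    have h2 : ((⌊T⌋₊ : ℤ) + 1 - -(⌊T⌋₊ : ℤ)).toNat = 2 * ⌊T⌋₊ + 1 := by omega
    rw [h2]
    push_cast
    have h3 := Nat.floor_le hT0.le
    have h4 : 2 * T + 1 ≤ Real.exp (2 * T) := Real.add_one_le_exp _
    set Y : ℝ := √(((n : ℝ) + 1) * L) with hY
    have hY1 : 1 ≤ Y := by
      rw [hY, Real.one_le_sqrt]; nlinarith
    have h5 : √(12 * (14 * (((n : ℝ) + 1) * L))) ≤ 13 * Y := by
      rw [Real.sqrt_le_iff]
      refine ⟨by positivity, ?_⟩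
      rw [mul_pow, hY, Real.sq_sqrt (by positivity)]
      have : 0 ≤ ((n : ℝ) + 1) * L := by positivity
      linarith
    calc (2 * (⌊T⌋₊ : ℝ) + 1) * B ≤ (2 * T + 1) * B := by
          have := (Real.exp_pos (64 * (T ^ 2 * √(12 * (14 * (((n : ℝ) + 1) * L)))))).le
          gcongr
      _ ≤ Real.exp (2 * T) * B := by
          have := (Real.exp_pos (64 * (T ^ 2 * √(12 * (14 * (((n : ℝ) + 1) * L)))))).le
          gcongr
      _ = Real.exp (2 * T + 64 * (T ^ 2 * √(12 * (14 * (((n : ℝ) + 1) * L))))) := by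
          rw [hB, ← Real.exp_add]
      _ ≤ _ := by
          apply Real.exp_le_exp.mpr
          have h6 : 2 * T ≤ 2 * (T ^ 2 * Y) := by nlinarith
          have h7 : 64 * (T ^ 2 * √(12 * (14 * (((n : ℝ) + 1) * L)))) ≤ 64 * (T ^ 2 * (13 * Y)) := by
            gcongr
          have h8 : 0 ≤ T ^ 2 * Y := by positivity
          nlinarith

end Pool.Agent.Helper79.LC
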